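import Pool.Agent.MUH.BigA
import Pool.Agent.MUG.FinB

/-!
# MUH: big monodromy

As `MUG.Big`.

`J i`: the tangent space is not zero on the factor `i`. Then `Cl N` contains all tuples in `∏ SL` which are `1`
outside `J` (`big_sl`). The part of `Cl N` which is `1` on `J` is a group with tangent space zero (`tan_mono`,
`tan_one`), so it is finite; but every element of `Cl N` is a product of the two. So `J` is everything, as `N` is
infinite on each factor.
-/

set_option linter.unusedSectionVars false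
set_option linter.unusedVariables false

namespace Pool.Agent.MUH

open Pool.Agent.MUW Pool.Agent.MUG

universe w

variable {F : Type w} [Field F] {l : ℕ} {r : Fin l → ℕ}

/-- the tangent space is not zero on any factor -/
theorem big_nz [CharZero F] {N : Set (Tup F r)} (hN : Grp N) (hS : ∀ h ∈ N, Sl h)
    (M : Twists N) (i : Fin l) : ∃ X ∈ Tan N, X i ≠ 0 := by
  classical
  by_contra hcon
  have hJi : ¬ (∃ X ∈ Tan N, X i ≠ 0) := hcon
  have hC := cl_grp hN hS
  obtain ⟨J, hJ⟩ : ∃ J : Fin l → Prop, J = fun j => ∃ X ∈ Tan N, X j ≠ 0 := ⟨_, rfl⟩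
  have hJ' : ∀ j, J j ↔ ∃ X ∈ Tan N, X j ≠ 0 := fun j => by rw [hJ]
  have hi : ¬ J i := fun h => hJi ((hJ' i).mp h)
  obtain ⟨N', hN'⟩ : ∃ N' : Set (Tup F r), N' = {h | h ∈ Cl N ∧ ∀ j, J j → h j = 1} := ⟨_, rfl⟩
  have hmem : ∀ h, h ∈ N' ↔ h ∈ Cl N ∧ ∀ j, J j → h j = 1 := fun h => by rw [hN']; rfl
  have hG : Grp N' := by
    refine ⟨(hmem _).mpr ⟨hC.one, fun j _ => rfl⟩, fun h hh k hk => (hmem _).mpr ?_,
      fun h hh => ?_⟩
    · have h1 := (hmem h).mp hh
      have h2 := (hmem k).mp hk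
      refine ⟨hC.mul h h1.1 k h2.1, fun j hj => ?_⟩
      show h j * k j = 1
      rw [h1.2 j hj, h2.2 j hj, one_mul]
    · have h1 := (hmem h).mp hh
      obtain ⟨k, hk, hhk⟩ := hC.inv h h1.1
      refine ⟨k, (hmem k).mpr ⟨hk, fun j hj => ?_⟩, hhk⟩
      have h2 := hhk j
      rw [h1.2 j hj, one_mul] at h2
      exact h2
  have h0 : ∀ X ∈ Tan N', X = 0 := by
    intro X hX
    funext j
    by_cases hj : J j
    · exact tan_one j (fun k hk => ((hmem k).mp hk).2 j hj) hX
    · have hX' : X ∈ Tan N := tan_mono (fun k hk => ((hmem k).mp hk).1) hX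
      by_contra h
      exact hj ((hJ' j).mpr ⟨X, hX', h⟩)
  have hfin := fin_of_tan hG h0
  apply M.inf i
  refine (hfin.image fun h : Tup F r => h i).subset ?_
  rintro m ⟨h, hh, rfl⟩
  have hcl : h ∈ Cl N := sub_cl N hh
  have hk : (fun j => if J j then h j else 1 : Tup F r) ∈ Cl N := by
    refine big_sl hN hS M _ (fun j => ?_) fun j hj => ?_
    · by_cases hj : J j
      · simp only [if_pos hj]
        exact hS h hh j
      · simp only [if_neg hj]
        exact Matrix.det_one
    · exact if_neg fun hj' => hj ((hJ' j).mp hj')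
  obtain ⟨k', hk', hkk⟩ := hC.inv _ hk
  refine ⟨fun j => k' j * h j, (hmem _).mpr ⟨hC.mul k' hk' h hcl, fun j hj => ?_⟩, ?_⟩
  · have h1 := hkk j
    simp only [if_pos hj] at h1
    exact mul_eq_one_comm.mp h1
  · have h1 := hkk i
    simp only [if_neg hi, one_mul] at h1
    show k' i * h i = h i
    rw [h1, one_mul]

theorem big [CharZero F] {N : Set (Tup F r)} (hN : Grp N) (hS : ∀ h ∈ N, Sl h)
    (M : Twists N) : Dense N := fun p hp h hh =>
  big_sl hN hS M h hh (fun i hi => absurd (big_nz hN hS M i) hi) p hp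

end Pool.Agent.MUH
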