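import Pool.Agent.MUH.Full

/-!
# MUH: several factors

As `MUG.Prod`. Step from `J` to `J ∪ {k}`: suppose that all elements `X` of `g` which are zero on `J` and on the
factor `k` are zero on the factor `i`. Then `X_k ≠ 0` occurs, and all `X` which are zero on `J` and on the factor `i`
are zero on the factor `k`, otherwise apply `t_full` on the factor `k` and take brackets. So `X_i ↦ X_k` is an
isomorphism of the Lie algebras `sl`, which is compatible with `T`.
-/

set_option linter.unusedSectionVars false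
set_option linter.unusedVariables false

namespace Pool.Agent.MUH

open Pool.Agent.MUW Pool.Agent.MUG

universe w

variable {F : Type w} [Field F] {l : ℕ} {r : Fin l → ℕ}

/-- the elements of `g` which are zero on `J` -/
private def prdSub (g : Submodule F (Tup F r)) (J : Finset (Fin l)) :
    Submodule F (Tup F r) where
  carrier := {X | X ∈ g ∧ ∀ k ∈ J, X k = 0}
  zero_mem' := ⟨g.zero_mem, fun _ _ => rfl⟩
  add_mem' := by
    rintro X Y ⟨hX, hX'⟩ ⟨hY, hY'⟩
    exact ⟨g.add_mem hX hY, fun k hk => by rw [Pi.add_apply, hX' k hk, hY' k hk, add_zero]⟩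
  smul_mem' := by
    rintro c X ⟨hX, hX'⟩
    exact ⟨g.smul_mem c hX, fun k hk => by rw [Pi.smul_apply, hX' k hk, smul_zero]⟩

/-- the hypotheses of this file -/
private structure Hyp (g : Submodule F (Tup F r)) (T : Set (Tup F r)) : Prop where
  br : ∀ X ∈ g, ∀ Y ∈ g, (fun i => X i * Y i - Y i * X i) ∈ g
  tr : ∀ X ∈ g, ∀ i, (X i).trace = 0
  unit : ∀ s ∈ T, ∀ i, IsUnit (s i).det
  norm : ∀ s ∈ T, ∀ X ∈ g, (fun i => s i * X i * (s i)⁻¹) ∈ g
  irr : ∀ (i : Fin l) (U : Submodule F (Fin (r i) → F)),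
    (∀ s ∈ T, (∃ t, t ≠ -1 ∧ IsTw t (s i)) → ∀ u ∈ U, (s i).mulVec u ∈ U) → U = ⊥ ∨ U = ⊤
  alt : ∀ i, r i ≠ 2 → ∀ J : Matrix (Fin (r i)) (Fin (r i)) F, J.transpose = -J →
    (∀ s ∈ T, ∃ c : F, (s i).transpose * J * s i = c • J) → J = 0
  sep : ∀ i k, i ≠ k → ∀ f : LieAlgebra.SpecialLinear.sl (Fin (r i)) F ≃ₗ⁅F⁆
    LieAlgebra.SpecialLinear.sl (Fin (r k)) F, ∃ s ∈ T,
      ∃ X Y : LieAlgebra.SpecialLinear.sl (Fin (r i)) F,
        (Y : Matrix (Fin (r i)) (Fin (r i)) F) = s i * X.1 * (s i)⁻¹ ∧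
          (f Y : Matrix (Fin (r k)) (Fin (r k)) F) ≠ s k * (f X).1 * (s k)⁻¹

variable [CharZero F] {g : Submodule F (Tup F r)} {T : Set (Tup F r)}

private lemma prd_surj (H : Hyp g T) (i : Fin l) (J : Finset (Fin l))
    (hi : ∃ X ∈ prdSub g J, X i ≠ 0)
    (A : Matrix (Fin (r i)) (Fin (r i)) F) (hA : A.trace = 0) : ∃ X ∈ prdSub g J, X i = A := by
  have key : A ∈ (prdSub g J).map
      (LinearMap.proj i : Tup F r →ₗ[F] Matrix (Fin (r i)) (Fin (r i)) F) := by
    refine t_full _ ?_ ?_ ?_ {m | ∃ s ∈ T, s i = m} ?_ ?_ ?_ A hA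
    · rintro _ ⟨X, hX, rfl⟩ _ ⟨Y, hY, rfl⟩
      refine ⟨fun i => X i * Y i - Y i * X i, ⟨H.br X hX.1 Y hY.1, fun k hk => ?_⟩, rfl⟩
      show X k * Y k - Y k * X k = 0
      rw [hX.2 k hk, zero_mul, mul_zero, sub_zero]
    · rintro _ ⟨X, hX, rfl⟩
      exact H.tr X hX.1 i
    · obtain ⟨X, hX, hXi⟩ := hi
      exact ⟨X i, ⟨X, hX, rfl⟩, hXi⟩
    · rintro _ ⟨s, hs, rfl⟩
      refine ⟨H.unit s hs i, ?_⟩
      rintro _ ⟨X, hX, rfl⟩
      refine ⟨fun i => s i * X i * (s i)⁻¹, ⟨H.norm s hs X hX.1, fun k hk => ?_⟩, rfl⟩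
      show s k * X k * (s k)⁻¹ = 0
      rw [hX.2 k hk, mul_zero, zero_mul]
    · intro U hU
      exact H.irr i U fun s hs h u hu => hU (s i) ⟨s, hs, rfl⟩ h u hu
    · intro h2 B hB h3
      exact H.alt i h2 B hB fun s hs => h3 (s i) ⟨s, hs, rfl⟩
  obtain ⟨X, hX, hXA⟩ := key
  exact ⟨X, hX, hXA⟩

/-- in `sl` there is no nonzero element which commutes with everything -/
private lemma sl_center {n : ℕ} (A : Matrix (Fin n) (Fin n) F) (hA : A.trace = 0)
    (h : ∀ B : Matrix (Fin n) (Fin n) F, B.trace = 0 → A * B = B * A) : A = 0 := by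
  classical
  have h1 : ∀ i j : Fin n, i ≠ j → A i j = 0 ∧ A i i = A j j := by
    intro i j hij
    have h2 := h (Matrix.single j i 1) (Matrix.trace_single_eq_of_ne j i 1 (Ne.symm hij))
    have h3 := congrFun (congrFun h2 i) i
    have h4 := congrFun (congrFun h2 j) i
    rw [Matrix.mul_single_apply_same, mul_one, Matrix.single_mul_apply_of_ne _ _ _ _ _ hij] at h3
    rw [Matrix.mul_single_apply_same, mul_one, Matrix.single_mul_apply_same, one_mul] at h4
    exact ⟨h3, h4.symm⟩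
  have h2 : ∀ i, A i i = 0 := by
    intro i
    have h3 : A.trace = (n : F) * A i i := by
      rw [Matrix.trace]
      have h4 : ∀ j, A.diag j = A i i := by
        intro j
        rw [Matrix.diag_apply]
        by_cases hij : i = j
        · rw [hij]
        · exact (h1 i j hij).2.symm
      rw [Finset.sum_congr rfl fun j _ => h4 j, Finset.sum_const, Finset.card_univ,
        Fintype.card_fin, nsmul_eq_mul]
    rw [hA] at h3
    have hn : (n : F) ≠ 0 := by
      rw [Nat.cast_ne_zero]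
      rintro rfl
      exact i.elim0
    exact (mul_eq_zero.1 h3.symm).resolve_left hn
  ext i j
  by_cases hij : i = j
  · rw [← hij, h2 i, Matrix.zero_apply]
  · rw [(h1 i j hij).1, Matrix.zero_apply]

private lemma prd_step (H : Hyp g T) (i : Fin l) (J : Finset (Fin l))
    (hi : ∃ X ∈ prdSub g J, X i ≠ 0) (k : Fin l) (hk : i ≠ k) :
    ∃ X ∈ prdSub g (insert k J), X i ≠ 0 := by
  classical
  by_contra hcon
  push Not at hcon
  have c1 : ∀ X ∈ prdSub g J, X k = 0 → X i = 0 := by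
    intro X hX hXk
    refine hcon X ⟨hX.1, fun j hj => ?_⟩
    rcases Finset.mem_insert.mp hj with rfl | hj
    · exact hXk
    · exact hX.2 j hj
  have hk' : ∃ X ∈ prdSub g J, X k ≠ 0 := by
    obtain ⟨X, hX, hXi⟩ := hi
    exact ⟨X, hX, fun h => hXi (c1 X hX h)⟩
  have c2 : ∀ X ∈ prdSub g J, X i = 0 → X k = 0 := by
    intro X hX hXi
    refine sl_center (X k) (H.tr X hX.1 k) fun B hB => ?_
    obtain ⟨Y, hY, hYk⟩ := prd_surj H k J hk' B hB
    by_contra hne
    -- the elements which are zero on `J` and `i` are everything on `k`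
    have h3 : ∃ Z ∈ prdSub g (insert i J), Z k ≠ 0 := by
      refine ⟨X, ⟨hX.1, fun j hj => ?_⟩, fun h0 => hne (by rw [h0, zero_mul, mul_zero])⟩
      rcases Finset.mem_insert.mp hj with rfl | hj
      · exact hXi
      · exact hX.2 j hj
    obtain ⟨W, hW, hWi⟩ := hi
    obtain ⟨Z, hZ, hZk⟩ := prd_surj H k (insert i J) h3 (W k) (H.tr W hW.1 k)
    have h4 : (W - Z) ∈ prdSub g J := (prdSub g J).sub_mem hW
      ⟨hZ.1, fun j hj => hZ.2 j (Finset.mem_insert_of_mem hj)⟩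
    have h5 := c1 _ h4 (by rw [Pi.sub_apply, hZk, sub_self])
    rw [Pi.sub_apply, hZ.2 i (Finset.mem_insert_self i J), sub_zero] at h5
    exact hWi h5
  -- the isomorphism
  let pi1 : prdSub g J →ₗ[F] LieAlgebra.SpecialLinear.sl (Fin (r i)) F :=
    { toFun := fun X => ⟨X.1 i, H.tr X.1 X.2.1 i⟩
      map_add' := fun X Y => rfl
      map_smul' := fun c X => rfl }
  let pi2 : prdSub g J →ₗ[F] LieAlgebra.SpecialLinear.sl (Fin (r k)) F :=
    { toFun := fun X => ⟨X.1 k, H.tr X.1 X.2.1 k⟩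
      map_add' := fun X Y => rfl
      map_smul' := fun c X => rfl }
  have s1 : Function.Surjective pi1 := by
    rintro ⟨A, hA⟩
    obtain ⟨X, hX, h⟩ := prd_surj H i J hi A hA
    exact ⟨⟨X, hX⟩, Subtype.ext h⟩
  have s2 : Function.Surjective pi2 := by
    rintro ⟨A, hA⟩
    obtain ⟨X, hX, h⟩ := prd_surj H k J hk' A hA
    exact ⟨⟨X, hX⟩, Subtype.ext h⟩
  have hker : LinearMap.ker pi1 = LinearMap.ker pi2 := by
    ext X
    rw [LinearMap.mem_ker, LinearMap.mem_ker]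
    constructor
    · intro h
      exact Subtype.ext (c2 X.1 X.2 (congrArg Subtype.val h))
    · intro h
      exact Subtype.ext (c1 X.1 X.2 (congrArg Subtype.val h))
  let e : LieAlgebra.SpecialLinear.sl (Fin (r i)) F ≃ₗ[F] LieAlgebra.SpecialLinear.sl (Fin (r k)) F :=
    (pi1.quotKerEquivOfSurjective s1).symm ≪≫ₗ
      (Submodule.quotEquivOfEq _ _ hker) ≪≫ₗ (pi2.quotKerEquivOfSurjective s2)
  have he : ∀ X : prdSub g J, e (pi1 X) = pi2 X := by
    intro X
    have h1 : (pi1.quotKerEquivOfSurjective s1).symm (pi1 X) = Submodule.Quotient.mk X := by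
      rw [LinearEquiv.symm_apply_eq]
      rfl
    show (pi2.quotKerEquivOfSurjective s2) (Submodule.quotEquivOfEq _ _ hker
      ((pi1.quotKerEquivOfSurjective s1).symm (pi1 X))) = _
    rw [h1]
    rfl
  let f : LieAlgebra.SpecialLinear.sl (Fin (r i)) F ≃ₗ⁅F⁆
      LieAlgebra.SpecialLinear.sl (Fin (r k)) F :=
    { e with
      map_lie' := by
        intro A B
        obtain ⟨X, rfl⟩ := s1 A
        obtain ⟨Y, rfl⟩ := s1 B
        have h2 := he ⟨fun j => X.1 j * Y.1 j - Y.1 j * X.1 j, H.br X.1 X.2.1 Y.1 Y.2.1,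
            fun j hj => by
              show X.1 j * Y.1 j - Y.1 j * X.1 j = 0
              rw [X.2.2 j hj, zero_mul, mul_zero, sub_zero]⟩
        show e ⁅pi1 X, pi1 Y⁆ = ⁅e (pi1 X), e (pi1 Y)⁆
        rw [he X, he Y]
        exact h2 }
  obtain ⟨s, hs, A, B, hB, hne⟩ := H.sep i k hk f
  obtain ⟨X, rfl⟩ := s1 A
  apply hne
  have h2 := he ⟨fun j => s j * X.1 j * (s j)⁻¹, H.norm s hs X.1 X.2.1, fun j hj => by
    show s j * X.1 j * (s j)⁻¹ = 0
    rw [X.2.2 j hj, mul_zero, zero_mul]⟩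
  have h3 : B = pi1 ⟨fun j => s j * X.1 j * (s j)⁻¹, H.norm s hs X.1 X.2.1, fun j hj => by
    show s j * X.1 j * (s j)⁻¹ = 0
    rw [X.2.2 j hj, mul_zero, zero_mul]⟩ := Subtype.ext hB
  have h4 : f B = pi2 ⟨fun j => s j * X.1 j * (s j)⁻¹, H.norm s hs X.1 X.2.1, fun j hj => by
    show s j * X.1 j * (s j)⁻¹ = 0
    rw [X.2.2 j hj, mul_zero, zero_mul]⟩ := by
    rw [h3]
    exact h2
  have h5 : f (pi1 X) = pi2 X := he X
  rw [h4, h5]
  rfl

/-- a Lie algebra of tuples, normalised by `T`, contains all matrices of trace zero on the factor `i`, if it is not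
zero on this factor -/
theorem prod_full (br : ∀ X ∈ g, ∀ Y ∈ g, (fun i => X i * Y i - Y i * X i) ∈ g)
    (tr : ∀ X ∈ g, ∀ i, (X i).trace = 0)
    (unit : ∀ s ∈ T, ∀ i, IsUnit (s i).det)
    (norm : ∀ s ∈ T, ∀ X ∈ g, (fun i => s i * X i * (s i)⁻¹) ∈ g)
    (irr : ∀ (i : Fin l) (U : Submodule F (Fin (r i) → F)),
      (∀ s ∈ T, (∃ t, t ≠ -1 ∧ IsTw t (s i)) → ∀ u ∈ U, (s i).mulVec u ∈ U) → U = ⊥ ∨ U = ⊤)
    (alt : ∀ i, r i ≠ 2 → ∀ J : Matrix (Fin (r i)) (Fin (r i)) F, J.transpose = -J →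
      (∀ s ∈ T, ∃ c : F, (s i).transpose * J * s i = c • J) → J = 0)
    (sep : ∀ i k, i ≠ k → ∀ f : LieAlgebra.SpecialLinear.sl (Fin (r i)) F ≃ₗ⁅F⁆
      LieAlgebra.SpecialLinear.sl (Fin (r k)) F, ∃ s ∈ T,
        ∃ X Y : LieAlgebra.SpecialLinear.sl (Fin (r i)) F,
          (Y : Matrix (Fin (r i)) (Fin (r i)) F) = s i * X.1 * (s i)⁻¹ ∧
            (f Y : Matrix (Fin (r k)) (Fin (r k)) F) ≠ s k * (f X).1 * (s k)⁻¹)
    (i : Fin l) (hi : ∃ X ∈ g, X i ≠ 0) (A : Matrix (Fin (r i)) (Fin (r i)) F)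
    (hA : A.trace = 0) : Function.update (0 : Tup F r) i A ∈ g := by
  classical
  have H : Hyp g T := ⟨br, tr, unit, norm, irr, alt, sep⟩
  have hJ : ∀ J : Finset (Fin l), i ∉ J → ∃ X ∈ prdSub g J, X i ≠ 0 := by
    intro J
    induction J using Finset.induction_on with
    | empty =>
      intro _
      obtain ⟨X, hX, hXi⟩ := hi
      exact ⟨X, ⟨hX, fun k hk => absurd hk (Finset.notMem_empty k)⟩, hXi⟩
    | insert k J _ ih =>
      intro hiJ
      rw [Finset.mem_insert, not_or] at hiJ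
      exact prd_step H i J (ih hiJ.2) k hiJ.1
  obtain ⟨X, hX, hXA⟩ := prd_surj H i (Finset.univ.erase i)
    (hJ _ (Finset.notMem_erase i _)) A hA
  have e : Function.update (0 : Tup F r) i A = X := by
    funext k
    by_cases hk : k = i
    · subst hk
      rw [Function.update_self, hXA]
    · rw [Function.update_of_ne hk, hX.2 k (Finset.mem_erase.mpr ⟨hk, Finset.mem_univ k⟩)]
      rfl
  rw [e]
  exact hX.1

end Pool.Agent.MUH
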