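import Pool.Agent.MUG.Adj
import Pool.Agent.MUG.Exp
import Pool.Agent.MUH.Prod
import Pool.Agent.MUG.SlnB

/-!
# MUH: big monodromy, part A

As `MUG.BigA`.

`prod_full` for `g = Tan N` gives the tuples which are a matrix unit `E_xy`, `x ≠ y`, on one factor and `0` on the
others, if `Tan N` is not zero on this factor; then `exp_mem` gives the transvections, and `sln_gen` the rest.
-/

set_option linter.unusedSectionVars false
set_option linter.unusedVariables false

namespace Pool.Agent.MUH

open Pool.Agent.MUW Pool.Agent.MUG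

universe w

variable {F : Type w} [Field F] {l : ℕ} {r : Fin l → ℕ}

private theorem BigA_single_mul {n : ℕ} {x y : Fin n} (hxy : x ≠ y) :
    Matrix.single x y (1 : F) * Matrix.single x y (1 : F) = 0 :=
  Matrix.single_mul_single_of_ne _ _ _ _ (Ne.symm hxy) _

private theorem BigA_exp {i : Fin l} {x y : Fin (r i)} (a : F) :
    (fun j => 1 + a • (Function.update (0 : Tup F r) i (Matrix.single x y (1 : F))) j) =
      Function.update (fun _ => 1 : Tup F r) i (Matrix.transvection x y a) := by
  funext j
  by_cases h : j = i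
  · subst h
    simp [Matrix.transvection]
  · rw [Function.update_of_ne h, Function.update_of_ne h]
    simp

private theorem BigA_tan [CharZero F] {N : Set (Tup F r)} (hN : Grp N) (hS : ∀ h ∈ N, Sl h)
    (M : Twists N) (i : Fin l) (hi : ∃ X ∈ Tan N, X i ≠ 0) (x y : Fin (r i)) (hxy : x ≠ y) :
    Function.update (0 : Tup F r) i (Matrix.single x y (1 : F)) ∈ Tan N := by
  refine prod_full (g := Tan N) (T := M.T) (fun X hX Y hY => tan_br hN hX hY)
    (fun X hX j => tan_tr hS hX j) M.unit ?_ M.irr M.alt M.sep i hi _ ?_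
  · intro s hs X hX
    exact tan_conj s (M.unit s hs) (M.norm s hs) hX
  · exact Matrix.trace_single_eq_of_ne x y 1 hxy

/-- `Cl N` contains the tuples in `∏ SL` which are `1` where the tangent space is zero -/
theorem big_sl [CharZero F] {N : Set (Tup F r)} (hN : Grp N) (hS : ∀ h ∈ N, Sl h)
    (M : Twists N) (h : Tup F r) (hh : Sl h)
    (h1 : ∀ i, ¬ (∃ X ∈ Tan N, X i ≠ 0) → h i = 1) : h ∈ Cl N := by
  refine sln_gen (Cl N) (sub_cl N hN.one) (fun h hh k hk => cl_mul hN hh hk)
    (fun i => ∃ X ∈ Tan N, X i ≠ 0) ?_ h hh h1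
  intro i hi x y hxy a
  rw [← BigA_exp]
  refine exp_mem hN (BigA_tan hN hS M i hi x y hxy) ?_ a
  intro j
  by_cases hj : j = i
  · subst hj
    rw [Function.update_self]
    exact BigA_single_mul hxy
  · rw [Function.update_of_ne hj]
    simp

end Pool.Agent.MUH
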