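import Pool.Agent.MUG.Mat
import Mathlib.Algebra.Lie.Classical

/-!
# MUH: big monodromy from transvections and homologies, matrix definitions

As `MUG.Reflections`, but transvections are allowed, if no alternating form is preserved, and instead of a condition
on the eigenvalues two factors are separated by the condition of Goursat, Kolchin and Ribet: no isomorphism of the Lie
algebras `sl` is compatible with the action.
-/

namespace Pool.Agent.MUH

open Pool.Agent.MUW Pool.Agent.MUG

universe w

variable {F : Type w} [Field F] {l : ℕ} {r : Fin l → ℕ}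

/-- `s = c (1 + E)`, `c ≠ 0`, `E` of rank at most one and of trace `t - 1`: up to the scalar `c` a homology with the
eigenvalue `t`, if `t ≠ 1`, and a transvection or the identity, if `t = 1`. -/
def IsTw {n : ℕ} (t : F) (s : Matrix (Fin n) (Fin n) F) : Prop :=
  ∃ (c : F) (v φ : Fin n → F), c ≠ 0 ∧ φ ⬝ᵥ v = t - 1 ∧ s = c • (1 + Matrix.vecMulVec v φ)

/-- `T` is a set of tuples of invertible matrices which normalise the Zariski closure of `N`. On each factor
* no subspace is stable under the components of the elements of `T` which are, up to scalars, transvections or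
  homologies of eigenvalue not `-1`;
* if its rank is not two, no alternating form is preserved up to scalars by `T`;
* `N` is infinite.
For `i ≠ k` no isomorphism of Lie algebras from `sl` on the factor `i` to `sl` on the factor `k` is compatible with
the conjugations by the elements of `T`. -/
structure Twists (N : Set (Tup F r)) where
  T : Set (Tup F r)
  unit : ∀ s ∈ T, ∀ i, IsUnit (s i).det
  norm : ∀ s ∈ T, ∀ h ∈ N, (fun i => s i * h i * (s i)⁻¹) ∈ Cl N
  irr : ∀ (i : Fin l) (U : Submodule F (Fin (r i) → F)),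
    (∀ s ∈ T, (∃ t, t ≠ -1 ∧ IsTw t (s i)) → ∀ u ∈ U, (s i).mulVec u ∈ U) → U = ⊥ ∨ U = ⊤
  alt : ∀ i, r i ≠ 2 → ∀ J : Matrix (Fin (r i)) (Fin (r i)) F, J.transpose = -J →
    (∀ s ∈ T, ∃ c : F, (s i).transpose * J * s i = c • J) → J = 0
  sep : ∀ i k, i ≠ k → ∀ f : LieAlgebra.SpecialLinear.sl (Fin (r i)) F ≃ₗ⁅F⁆
    LieAlgebra.SpecialLinear.sl (Fin (r k)) F, ∃ s ∈ T,
      ∃ X Y : LieAlgebra.SpecialLinear.sl (Fin (r i)) F,
        (Y : Matrix (Fin (r i)) (Fin (r i)) F) = s i * X.1 * (s i)⁻¹ ∧
          (f Y : Matrix (Fin (r k)) (Fin (r k)) F) ≠ s k * (f X).1 * (s k)⁻¹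
  inf : ∀ i, {m | ∃ h ∈ N, h i = m}.Infinite

end Pool.Agent.MUH
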