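import Pool.Agent.MUG.Defs
import Pool.Agent.MUH.Mat

/-!
# MUH: definitions

As `MUG.HomologyType`, with `Twists` instead of `Reflections`.
-/

namespace Pool.Agent.MUH

open CategoryTheory MonoidalCategory Limits TensorProduct Pool.Agent.KTT Pool.Agent.MUT
  Pool.Agent.MUW Pool.Agent.MUG

universe v u w w'

variable {C : Type u} [Category.{v} C] [Preadditive C] [HasBinaryBiproducts C]
  [MonoidalCategory C] [RightRigidCategory C]
  {F : Type w} [Field F] (H : C ⥤ ModuleCat.{w} F)

/-- The object `B` is generated by `V_1, …, V_l` and by the objects of a class `R` which contains the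
determinants of the `V_i`. The invariants in the objects of `R` are algebraic, and there are enough transvections and
homologies which normalise the Zariski closure of the group of the elements of `G` which act trivially on the objects
of `R`. -/
structure TwistType [BraidedCategory C] [H.Monoidal] {G : Type w'} [Group G] (ρ : G →* Aut H)
    (B : C) where
  tens : ∀ g, NatTrans.IsMonoidal (ρ g).hom
  l : ℕ
  r : Fin l → ℕ
  V : Fin l → C
  /-- bases of the `H(V_i)` -/
  b : ∀ i, Module.Basis (Fin (r i)) F (H.obj (V i))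
  /-- the exchange of `V_i` and `V_k` is the commutativity isomorphism, up to a sign -/
  braid : ∃ s : F, (s = 1 ∨ s = -1) ∧ ∀ (i k : Fin l) (x : H.obj (V i)) (y : H.obj (V k)),
    (H.map (β_ (V i) (V k)).hom).hom (tm H x y) = s • tm H y x
  R : C → Prop
  unit : R (𝟙_ C)
  tensor : ∀ X Y, R X → R Y → R (X ⊗ Y)
  dual : ∀ X, R X → R Xᘁ
  tate : ∀ X, R X → fixed H ρ X ≤ alg H X ∧ Semisimple H ρ X
  /-- the determinant of `V_i` belongs to `R` -/
  det : ∀ i, ∃ D, R D ∧ Module.finrank F (H.obj D) = 1 ∧
    (∃ f ∈ ah H D (pw (V i) (r i)), ∃ d, f d = dv H (b i)) ∧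
    ∃ f ∈ ah H (pw (V i) (r i)) D, f (dv H (b i)) ≠ 0
  twists : Twists (Ker H ρ R b)
  gen : Ths (fun X => R X ∨ ∃ i, X = V i) B

end Pool.Agent.MUH
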