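import Pool.Agent.MUH.RankC

/-!
# MUH: Lie algebras spanned by nilpotent matrices of rank one, part D

If `h` does not contain all `a φ`, `a` in `V_0`, it preserves the alternating form `f`, where `f x` is given by
`x φ + v (f x) ∈ h` and `(f x) w = ψ x`.
-/

set_option linter.unusedSectionVars false
set_option linter.unusedVariables false

namespace Pool.Agent.MUH

universe w

variable {F : Type w} [Field F] {n : ℕ} {h : Submodule F (Matrix (Fin n) (Fin n) F)}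
  {v φ w ψ : Fin n → F}

private theorem d_proj (P : Pr h v φ w ψ) (x : Fin n → F) :
    φ ⬝ᵥ (x - (ψ ⬝ᵥ x) • v - (φ ⬝ᵥ x) • w) = 0 ∧
      ψ ⬝ᵥ (x - (ψ ⬝ᵥ x) • v - (φ ⬝ᵥ x) • w) = 0 := by
  constructor
  · rw [dotProduct_sub, dotProduct_sub, dotProduct_smul, dotProduct_smul, P.vv, P.vw]; simp
  · rw [dotProduct_sub, dotProduct_sub, dotProduct_smul, dotProduct_smul, P.wv, P.ww]; simp

private theorem d_dot {α : Fin n → F} (h1 : α ⬝ᵥ v = 0) (h2 : α ⬝ᵥ w = 0) (x : Fin n → F)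
    (c d : F) : α ⬝ᵥ (x - c • v - d • w) = α ⬝ᵥ x := by
  rw [dotProduct_sub, dotProduct_sub, dotProduct_smul, dotProduct_smul, h1, h2]; simp

variable [CharZero F]

private theorem d_k0 (R : Rk h) (P : Pr h v φ w ψ)
    (hK : ∃ a, φ ⬝ᵥ a = 0 ∧ ψ ⬝ᵥ a = 0 ∧ Matrix.vecMulVec a φ ∉ h) (b : Fin n → F)
    (h1 : φ ⬝ᵥ b = 0) (h2 : ψ ⬝ᵥ b = 0) (h3 : Matrix.vecMulVec b φ ∈ h) : b = 0 := by
  by_contra hb
  have hb' : Lm h v φ w ψ b 0 := ⟨h1, h2, zero_dotProduct _, zero_dotProduct _, by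
    rw [Matrix.vecMulVec_zero, add_zero]; exact h3⟩
  have key : ∀ a α, Lm h v φ w ψ a α → α ⬝ᵥ b ≠ 0 → Matrix.vecMulVec a φ ∈ h := by
    intro a α h4 h5
    have h6 := (h4.tri R P hb').mem
    rw [zero_dotProduct, mul_zero, zero_smul, smul_zero, add_zero, neg_zero,
      Matrix.vecMulVec_zero, add_zero, Matrix.add_vecMulVec, Matrix.smul_vecMulVec,
      Matrix.smul_vecMulVec] at h6
    have h7 := h.sub_mem h6 (h.smul_mem (α ⬝ᵥ a) h3)
    rw [add_sub_cancel_right] at h7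
    have h8 := h.smul_mem (2 * (α ⬝ᵥ b))⁻¹ h7
    rwa [smul_smul, inv_mul_cancel₀ (mul_ne_zero two_ne_zero h5), one_smul] at h8
  obtain ⟨a1, α1, h4, h5⟩ : ∃ a α, Lm h v φ w ψ a α ∧ α ⬝ᵥ b ≠ 0 := by
    by_contra hc
    push Not at hc
    exact hb (P.nd R b h1 h2 hc)
  obtain ⟨a, h6, h7, h8⟩ := hK
  obtain ⟨α, h9⟩ := P.ex R a h6 h7
  apply h8
  by_cases h10 : α ⬝ᵥ b = 0
  · have h11 := key _ _ (h9.add h4) (by rw [add_dotProduct, h10, zero_add]; exact h5)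
    have h12 := h.sub_mem h11 (key _ _ h4 h5)
    rwa [Matrix.add_vecMulVec, add_sub_cancel_right] at h12
  · exact key _ _ h9 h10

private theorem d_k0' (R : Rk h) (P : Pr h v φ w ψ)
    (hK : ∃ a, φ ⬝ᵥ a = 0 ∧ ψ ⬝ᵥ a = 0 ∧ Matrix.vecMulVec a φ ∉ h) (β : Fin n → F)
    (h1 : β ⬝ᵥ v = 0) (h2 : β ⬝ᵥ w = 0) (h3 : Matrix.vecMulVec v β ∈ h) : β = 0 := by
  refine dotProduct_eq_zero β fun x => ?_
  by_contra hx
  have hβ : Lm h v φ w ψ 0 β := ⟨dotProduct_zero _, dotProduct_zero _, h1, h2, by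
    rw [Matrix.zero_vecMulVec, zero_add]; exact h3⟩
  obtain ⟨e1, e2⟩ := d_proj P x
  have e3 := d_dot h1 h2 x (ψ ⬝ᵥ x) (φ ⬝ᵥ x)
  set x0 := x - (ψ ⬝ᵥ x) • v - (φ ⬝ᵥ x) • w with hx0
  rw [← e3] at hx
  obtain ⟨α, h4⟩ := P.ex R x0 e1 e2
  have h5 := (h4.tri R P hβ).add (hβ.smul (α ⬝ᵥ x0))
  rw [dotProduct_zero, mul_zero, zero_smul, smul_zero, add_zero, zero_add, neg_add, add_assoc,
    neg_add_cancel, add_zero] at h5
  have h6 := h5.smul (-(2 * (β ⬝ᵥ x0))⁻¹)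
  rw [smul_zero, neg_smul, smul_neg, neg_neg, smul_smul,
    inv_mul_cancel₀ (mul_ne_zero two_ne_zero hx), one_smul] at h6
  have h7 := h4.sub h6
  rw [sub_zero, sub_self] at h7
  have h8 := h7.mem
  rw [Matrix.vecMulVec_zero, add_zero] at h8
  have h9 := d_k0 R P hK x0 e1 e2 h8
  rw [h9, dotProduct_zero] at hx
  exact hx rfl

private theorem d_k1 (R : Rk h) (P : Pr h v φ w ψ)
    (hK : ∃ a, φ ⬝ᵥ a = 0 ∧ ψ ⬝ᵥ a = 0 ∧ Matrix.vecMulVec a φ ∉ h) {a α : Fin n → F}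
    (h1 : Lm h v φ w ψ a α) : α ⬝ᵥ a = 0 := by
  have h2 := (h1.tri R P h1).add (h1.smul (3 * (α ⬝ᵥ a)))
  have e1 : (2 * (α ⬝ᵥ a)) • a + (α ⬝ᵥ a) • a + (3 * (α ⬝ᵥ a)) • a = (6 * (α ⬝ᵥ a)) • a := by
    rw [← add_smul, ← add_smul]
    congr 1
    ring
  have e2 : -((2 * (α ⬝ᵥ a)) • α + (α ⬝ᵥ a) • α) + (3 * (α ⬝ᵥ a)) • α = 0 := by
    rw [← add_smul, ← neg_smul, ← add_smul]
    have : -(2 * (α ⬝ᵥ a) + (α ⬝ᵥ a)) + 3 * (α ⬝ᵥ a) = 0 := by ring
    rw [this, zero_smul]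
  rw [e1, e2] at h2
  have h3 := h2.mem
  rw [Matrix.vecMulVec_zero, add_zero] at h3
  have h4 := d_k0 R P hK _ h2.a1 h2.a2 h3
  rcases smul_eq_zero.1 h4 with h5 | h5
  · exact (mul_eq_zero.1 h5).resolve_left (by norm_num)
  · rw [h5, dotProduct_zero]

/-- the graph of the form -/
private def dG (h : Submodule F (Matrix (Fin n) (Fin n) F)) (v φ w ψ : Fin n → F) :
    Submodule F ((Fin n → F) × (Fin n → F)) where
  carrier := {p | Matrix.vecMulVec p.1 φ + Matrix.vecMulVec v p.2 ∈ h ∧ p.2 ⬝ᵥ w = ψ ⬝ᵥ p.1}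
  add_mem' := by
    rintro p q ⟨h1, h2⟩ ⟨h3, h4⟩
    refine ⟨?_, ?_⟩
    · have h5 := h.add_mem h1 h3
      rw [Prod.fst_add, Prod.snd_add, Matrix.add_vecMulVec, Matrix.vecMulVec_add]
      convert h5 using 1
      abel
    · rw [Prod.fst_add, Prod.snd_add, add_dotProduct, dotProduct_add, h2, h4]
  zero_mem' := by
    refine ⟨?_, ?_⟩
    · rw [Prod.fst_zero, Prod.snd_zero, Matrix.zero_vecMulVec, Matrix.vecMulVec_zero, add_zero]
      exact h.zero_mem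
    · rw [Prod.fst_zero, Prod.snd_zero, zero_dotProduct, dotProduct_zero]
  smul_mem' := by
    rintro c p ⟨h1, h2⟩
    refine ⟨?_, ?_⟩
    · rw [Prod.smul_fst, Prod.smul_snd, Matrix.smul_vecMulVec, Matrix.vecMulVec_smul, ← smul_add]
      exact h.smul_mem c h1
    · rw [Prod.smul_fst, Prod.smul_snd, smul_dotProduct, dotProduct_smul, h2]

theorem Pr.form (R : Rk h) (P : Pr h v φ w ψ)
    (hK : ∃ a, φ ⬝ᵥ a = 0 ∧ ψ ⬝ᵥ a = 0 ∧ Matrix.vecMulVec a φ ∉ h) :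
    n ≠ 2 ∧ ∃ f : (Fin n → F) →ₗ[F] (Fin n → F), f ≠ 0 ∧ (∀ x, f x ⬝ᵥ x = 0) ∧
      (∀ X ∈ h, ∀ x, f (X.mulVec x) = - Matrix.vecMul (f x) X) ∧
      ∀ y η, Matrix.vecMulVec y η ∈ h → η ≠ 0 → ∃ c : F, f y = c • η := by
  classical
  refine ⟨?_, ?_⟩
  · rintro rfl
    obtain ⟨a, h1, h2, h3⟩ := hK
    apply h3
    let L : (Fin 2 → F) →ₗ[F] (Fin 2 → F) :=
      { toFun := fun x => ![φ ⬝ᵥ x, ψ ⬝ᵥ x]
        map_add' := fun x y => by
          ext i; fin_cases i <;> simp [dotProduct_add]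
        map_smul' := fun c x => by
          ext i; fin_cases i <;> simp [dotProduct_smul] }
    have hL : Function.Surjective L := by
      intro y
      refine ⟨y 0 • w + y 1 • v, ?_⟩
      show ![φ ⬝ᵥ (y 0 • w + y 1 • v), ψ ⬝ᵥ (y 0 • w + y 1 • v)] = y
      rw [dotProduct_add, dotProduct_add, dotProduct_smul, dotProduct_smul, dotProduct_smul,
        dotProduct_smul, P.vv, P.vw, P.wv, P.ww]
      ext i; fin_cases i <;> simp
    have hL' := LinearMap.injective_iff_surjective.2 hL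
    have h4 : a = 0 := by
      apply hL'
      rw [map_zero]
      show ![φ ⬝ᵥ a, ψ ⬝ᵥ a] = 0
      rw [h1, h2]
      ext i; fin_cases i <;> rfl
    rw [h4, Matrix.zero_vecMulVec]
    exact h.zero_mem
  have hH := P.hh R
  -- the graph
  set G := dG h v φ w ψ with hGdef
  have hGm : ∀ x ξ, (x, ξ) ∈ G ↔
      Matrix.vecMulVec x φ + Matrix.vecMulVec v ξ ∈ h ∧ ξ ⬝ᵥ w = ψ ⬝ᵥ x := fun x ξ => Iff.rfl
  let p1 : G →ₗ[F] (Fin n → F) := (LinearMap.fst F _ _).comp G.subtype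
  have hinj : Function.Injective p1 := by
    rw [injective_iff_map_eq_zero]
    rintro ⟨⟨x, ξ⟩, hxξ⟩ h1
    have h2 : x = 0 := h1
    subst h2
    obtain ⟨h3, h4⟩ := (hGm _ _).1 hxξ
    rw [Matrix.zero_vecMulVec, zero_add] at h3
    rw [dotProduct_zero] at h4
    have h5 := d_k0' R P hK ξ (R.dot h3) h4 h3
    subst h5
    rfl
  have hsurj' : ∀ x α, Lm h v φ w ψ (x - (ψ ⬝ᵥ x) • v - (φ ⬝ᵥ x) • w) α →
      (x, (ψ ⬝ᵥ x) • φ - (φ ⬝ᵥ x) • ψ + α) ∈ G := by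
    intro x α h1
    refine (hGm _ _).2 ⟨?_, ?_⟩
    · have h2 := h.sub_mem (h.add_mem h1.mem (h.smul_mem (2 * (ψ ⬝ᵥ x)) P.e))
        (h.smul_mem (φ ⬝ᵥ x) hH)
      convert h2 using 1
      ext i j
      simp only [Matrix.sub_apply, Matrix.add_apply, Matrix.smul_apply, Matrix.vecMulVec_apply,
        smul_eq_mul, Pi.sub_apply, Pi.smul_apply, Pi.add_apply]
      ring
    · rw [add_dotProduct, sub_dotProduct, smul_dotProduct, smul_dotProduct, P.vw, P.ww, h1.α2]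
      simp
  have hsurj : Function.Surjective p1 := by
    intro x
    obtain ⟨α, h1⟩ := P.ex R _ (d_proj P x).1 (d_proj P x).2
    exact ⟨⟨_, hsurj' x α h1⟩, rfl⟩
  let e := LinearEquiv.ofBijective p1 ⟨hinj, hsurj⟩
  let f : (Fin n → F) →ₗ[F] (Fin n → F) :=
    (LinearMap.snd F _ _).comp (G.subtype.comp e.symm.toLinearMap)
  have hf : ∀ x, (x, f x) ∈ G := by
    intro x
    have h1 : p1 (e.symm x) = x := e.apply_symm_apply x
    have h2 : ((e.symm x : G) : (Fin n → F) × (Fin n → F)) = (x, f x) := Prod.ext h1 rfl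
    rw [← h2]
    exact (e.symm x).2
  have hfu : ∀ x ξ, (x, ξ) ∈ G → f x = ξ := by
    intro x ξ h1
    have h2 : (⟨(x, f x), hf x⟩ : G) = ⟨(x, ξ), h1⟩ := hinj rfl
    exact congrArg (fun q : G => q.1.2) h2
  have hfv : f v = φ := hfu v φ ((hGm _ _).2 ⟨h.add_mem P.e P.e, by rw [P.vw, P.wv]⟩)
  have halt : ∀ x, f x ⬝ᵥ x = 0 := by
    intro x
    obtain ⟨α, h1⟩ := P.ex R _ (d_proj P x).1 (d_proj P x).2
    rw [hfu x _ (hsurj' x α h1), add_dotProduct, sub_dotProduct, smul_dotProduct, smul_dotProduct,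
      ← d_dot h1.α1 h1.α2 x (ψ ⬝ᵥ x) (φ ⬝ᵥ x), d_k1 R P hK h1]
    simp only [smul_eq_mul]
    ring
  have hpol : ∀ x y, f x ⬝ᵥ y = - (f y ⬝ᵥ x) := by
    intro x y
    have h1 := halt (x + y)
    rw [map_add, add_dotProduct, dotProduct_add, dotProduct_add, halt, halt, zero_add,
      add_zero] at h1
    exact eq_neg_of_add_eq_zero_left h1
  have hrk : ∀ y η, Matrix.vecMulVec y η ∈ h → η ≠ 0 → ∃ c : F, f y = c • η := by
    intro y η hyη hη
    have hyη0 := R.dot hyη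
    obtain ⟨c, hc⟩ : ∃ c : F, c = (η ⬝ᵥ v) * (ψ ⬝ᵥ y) + (φ ⬝ᵥ y) * (η ⬝ᵥ w) := ⟨_, rfl⟩
    -- the bracket with `v φ`
    have hA : (η ⬝ᵥ v) • f y = -((φ ⬝ᵥ y) • η) + c • φ := by
      rw [← map_smul]
      refine hfu _ _ ((hGm _ _).2 ⟨?_, ?_⟩)
      · have h1 := h.add_mem (R.br2 hyη P.e) (h.smul_mem c P.e)
        convert h1 using 1
        ext i j
        simp only [Matrix.sub_apply, Matrix.add_apply, Matrix.smul_apply, Matrix.vecMulVec_apply,
          smul_eq_mul, Pi.smul_apply, Pi.add_apply, Pi.neg_apply]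
        ring
      · rw [add_dotProduct, neg_dotProduct, smul_dotProduct, smul_dotProduct, dotProduct_smul,
          P.vw, hc]
        simp only [smul_eq_mul]
        ring
    -- the bracket with `w ψ`
    have hB : (η ⬝ᵥ w) • f y = (ψ ⬝ᵥ y) • η - c • ψ := by
      have h1 := (hGm _ _).1 (hf y)
      have h2 : Matrix.vecMulVec w (f y) - Matrix.vecMulVec y ψ ∈ h := by
        have h3 := h.add_mem (R.br _ P.f _ h1.1) (h.smul_mem (ψ ⬝ᵥ y) hH)
        rw [mul_add, add_mul, vv_mul, vv_mul, vv_mul, vv_mul, P.wv, P.vw, h1.2] at h3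
        convert h3 using 1
        ext i j
        simp only [Matrix.sub_apply, Matrix.add_apply, Matrix.smul_apply, Matrix.vecMulVec_apply,
          smul_eq_mul]
        ring
      have h3 : Matrix.vecMulVec w ((η ⬝ᵥ w) • f y - (ψ ⬝ᵥ y) • η) ∈ h := by
        have h4 := h.add_mem (h.smul_mem (η ⬝ᵥ w) h2) (R.br2 hyη P.f)
        convert h4 using 1
        ext i j
        simp only [Matrix.sub_apply, Matrix.add_apply, Matrix.smul_apply, Matrix.vecMulVec_apply,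
          smul_eq_mul, Pi.sub_apply, Pi.smul_apply]
        ring
      have h4 := R.dot h3
      have h5 : ((η ⬝ᵥ w) • f y - (ψ ⬝ᵥ y) • η) ⬝ᵥ v = -c := by
        rw [sub_dotProduct, smul_dotProduct, smul_dotProduct, hpol y v, hfv, hc]
        simp only [smul_eq_mul]
        ring
      have h6 := R.br2 P.e h3
      rw [P.vw, h5, one_smul] at h6
      have h7 : Matrix.vecMulVec v ((η ⬝ᵥ w) • f y - (ψ ⬝ᵥ y) • η + c • ψ) ∈ h := by
        have h8 := h.add_mem h6 (h.smul_mem c hH)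
        convert h8 using 1
        ext i j
        simp only [Matrix.sub_apply, Matrix.add_apply, Matrix.smul_apply, Matrix.vecMulVec_apply,
          smul_eq_mul, Pi.sub_apply, Pi.smul_apply, Pi.add_apply]
        ring
      have h9 := d_k0' R P hK _ (by rw [add_dotProduct, h5, smul_dotProduct, P.wv]; simp)
        (by rw [add_dotProduct, h4, smul_dotProduct, P.ww]; simp) h7
      have h10 : (η ⬝ᵥ w) • f y = (ψ ⬝ᵥ y) • η - c • ψ +
        ((η ⬝ᵥ w) • f y - (ψ ⬝ᵥ y) • η + c • ψ) := by abel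
      rw [h9, add_zero] at h10
      exact h10
    have hc0 : c = 0 := by
      by_contra hc1
      have h1 : φ ⬝ᵥ y = 0 := by
        have h2 := congrArg (fun z => z ⬝ᵥ y) hA
        simp only [smul_dotProduct, add_dotProduct, neg_dotProduct, halt, hyη0, smul_zero, neg_zero,
          zero_add, smul_eq_mul, mul_zero] at h2
        exact (mul_eq_zero.1 h2.symm).resolve_left hc1
      have h3 : ψ ⬝ᵥ y = 0 := by
        have h2 := congrArg (fun z => z ⬝ᵥ y) hB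
        simp only [smul_dotProduct, sub_dotProduct, halt, hyη0, smul_zero,
          zero_sub, smul_eq_mul, mul_zero] at h2
        exact (mul_eq_zero.1 (neg_eq_zero.1 h2.symm)).resolve_left hc1
      rw [h1, h3, mul_zero, zero_mul, add_zero] at hc
      exact hc1 hc
    rw [hc0, zero_smul, add_zero] at hA
    rw [hc0, zero_smul, sub_zero] at hB
    by_cases h1 : η ⬝ᵥ v = 0
    · by_cases h2 : η ⬝ᵥ w = 0
      · rw [h1, zero_smul] at hA
        rw [h2, zero_smul] at hB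
        have h3 : φ ⬝ᵥ y = 0 := (smul_eq_zero.1 (neg_eq_zero.1 hA.symm)).resolve_right hη
        have h4 : ψ ⬝ᵥ y = 0 := (smul_eq_zero.1 hB.symm).resolve_right hη
        obtain ⟨x, hx⟩ : ∃ x, η ⬝ᵥ x ≠ 0 := by
          by_contra hcon
          push Not at hcon
          exact hη (dotProduct_eq_zero η hcon)
        obtain ⟨β, hβ⟩ := P.ex R _ (d_proj P x).1 (d_proj P x).2
        rw [← d_dot h1 h2 x (ψ ⬝ᵥ x) (φ ⬝ᵥ x)] at hx
        set b := x - (ψ ⬝ᵥ x) • v - (φ ⬝ᵥ x) • w with hb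
        have h5 : (η ⬝ᵥ b) • f y = -((β ⬝ᵥ y) • η) := by
          rw [← map_smul]
          refine hfu _ _ ((hGm _ _).2 ⟨?_, ?_⟩)
          · have h6 := R.br _ hyη _ hβ.mem
            rw [mul_add, add_mul, vv_mul, vv_mul, vv_mul, vv_mul, h1, h3] at h6
            convert h6 using 1
            ext i j
            simp only [Matrix.sub_apply, Matrix.add_apply, Matrix.smul_apply,
              Matrix.vecMulVec_apply, smul_eq_mul, Pi.smul_apply, Pi.neg_apply]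
            ring
          · rw [neg_dotProduct, smul_dotProduct, h2, dotProduct_smul, h4]
            simp
        refine ⟨(η ⬝ᵥ b)⁻¹ * -(β ⬝ᵥ y), ?_⟩
        rw [mul_smul, neg_smul, ← h5, smul_smul, inv_mul_cancel₀ hx, one_smul]
      · refine ⟨(η ⬝ᵥ w)⁻¹ * (ψ ⬝ᵥ y), ?_⟩
        rw [mul_smul, ← hB, smul_smul, inv_mul_cancel₀ h2, one_smul]
    · refine ⟨(η ⬝ᵥ v)⁻¹ * -(φ ⬝ᵥ y), ?_⟩
      rw [mul_smul, neg_smul, ← hA, smul_smul, inv_mul_cancel₀ h1, one_smul]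
  refine ⟨f, ?_, halt, ?_, hrk⟩
  · intro h1
    have h2 := P.vw
    rw [← hfv, h1, LinearMap.zero_apply, zero_dotProduct] at h2
    exact zero_ne_one h2
  · intro X hX
    refine R.ind (P := fun X => ∀ x, f (X.mulVec x) = - Matrix.vecMul (f x) X) ?_ ?_ ?_ ?_ X hX
    · intro y η hyη x
      rw [vv_vec, map_smul, Matrix.vecMul_vecMulVec]
      by_cases hη : η = 0
      · rw [hη]; simp
      · obtain ⟨c, hc⟩ := hrk y η hyη hη
        rw [← neg_smul, ← hpol y x, hc, smul_dotProduct, smul_smul, smul_eq_mul, mul_comm]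
    · intro x
      rw [Matrix.zero_mulVec, map_zero, Matrix.vecMul_zero, neg_zero]
    · intro X Y h1 h2 x
      rw [Matrix.add_mulVec, map_add, h1, h2, Matrix.vecMul_add, neg_add]
    · intro c X h1 x
      rw [Matrix.smul_mulVec, map_smul, h1, Matrix.vecMul_smul, smul_neg]

end Pool.Agent.MUH
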