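import Pool.Agent.MUG.Full
import Pool.Agent.MUH.Irr
import Pool.Agent.MUH.RankD

/-!
# MUH: one factor

Let `g ≠ 0` be a Lie algebra of matrices of trace zero, normalised by `T`. If there is a homology of eigenvalue not
`1`, `-1` in `T`, up to a scalar, `g` contains all matrices of trace zero by `MUG.g_full`. Otherwise let `h` be
spanned by the nilpotent matrices of rank one which normalise `g`. It is irreducible, as it contains `s/c - 1` for the
transvections in `T`, so it contains all matrices of trace zero, or it preserves an alternating form, and then `T`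
preserves this form up to scalars.
-/

set_option linter.unusedSectionVars false
set_option linter.unusedVariables false

namespace Pool.Agent.MUH

open Pool.Agent.MUW Pool.Agent.MUG

universe w

variable {F : Type w} [Field F] {n : ℕ}

/-- the normaliser of `g` -/
private def nrm (g : Submodule F (Matrix (Fin n) (Fin n) F)) :
    Submodule F (Matrix (Fin n) (Fin n) F) where
  carrier := {Y | ∀ X ∈ g, Y * X - X * Y ∈ g}
  add_mem' := by
    intro Y Z hY hZ X hX
    have h1 := g.add_mem (hY X hX) (hZ X hX)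
    convert h1 using 1
    rw [add_mul, mul_add]
    abel
  zero_mem' := by
    intro X hX
    rw [zero_mul, mul_zero, sub_zero]
    exact g.zero_mem
  smul_mem' := by
    intro c Y hY X hX
    have h1 := g.smul_mem c (hY X hX)
    rwa [smul_sub, ← Matrix.smul_mul, ← Matrix.mul_smul] at h1

private theorem nrm_br {g : Submodule F (Matrix (Fin n) (Fin n) F)}
    {Y Z : Matrix (Fin n) (Fin n) F} (hY : Y ∈ nrm g) (hZ : Z ∈ nrm g) :
    Y * Z - Z * Y ∈ nrm g := by
  intro X hX
  have h1 := g.sub_mem (hY _ (hZ X hX)) (hZ _ (hY X hX))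
  convert h1 using 1
  noncomm_ring

/-- the span of the nilpotent matrices of rank one in the normaliser -/
private def nh (g : Submodule F (Matrix (Fin n) (Fin n) F)) :
    Submodule F (Matrix (Fin n) (Fin n) F) :=
  Submodule.span F {X | X ∈ nrm g ∧ ∃ v φ, X = Matrix.vecMulVec v φ ∧ φ ⬝ᵥ v = 0}

private theorem nh_le (g : Submodule F (Matrix (Fin n) (Fin n) F)) : nh g ≤ nrm g :=
  Submodule.span_le.2 fun X hX => hX.1

private theorem nh_br1 [CharZero F] {g : Submodule F (Matrix (Fin n) (Fin n) F)}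
    {v φ w ψ : Fin n → F} (h1 : Matrix.vecMulVec v φ ∈ nrm g) (h2 : φ ⬝ᵥ v = 0)
    (h3 : Matrix.vecMulVec w ψ ∈ nrm g) (h4 : ψ ⬝ᵥ w = 0) :
    Matrix.vecMulVec v φ * Matrix.vecMulVec w ψ - Matrix.vecMulVec w ψ * Matrix.vecMulVec v φ ∈
      nh g := by
  have key : ∀ s : F, Matrix.vecMulVec (w + (s * (φ ⬝ᵥ w)) • v) (ψ - (s * (ψ ⬝ᵥ v)) • φ) ∈
      nh g := by
    intro s
    refine Submodule.subset_span ⟨?_, _, _, rfl, ?_⟩
    · have h5 := (nrm g).sub_mem ((nrm g).add_mem h3 ((nrm g).smul_mem s (nrm_br h1 h3)))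
        ((nrm g).smul_mem (s * (φ ⬝ᵥ w) * (s * (ψ ⬝ᵥ v))) h1)
      rw [vv_mul, vv_mul] at h5
      convert h5 using 1
      ext i j
      simp only [Matrix.sub_apply, Matrix.add_apply, Matrix.smul_apply, Matrix.vecMulVec_apply,
        smul_eq_mul, Pi.add_apply, Pi.sub_apply, Pi.smul_apply]
      ring
    · rw [sub_dotProduct, dotProduct_add, dotProduct_add, smul_dotProduct, smul_dotProduct,
        dotProduct_smul, dotProduct_smul, h2, h4]
      simp only [smul_eq_mul]
      ring
  have h5 := (nh g).smul_mem (2 : F)⁻¹ ((nh g).sub_mem (key 1) (key (-1)))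
  rw [vv_mul, vv_mul]
  convert h5 using 1
  ext i j
  simp only [Matrix.sub_apply, Matrix.smul_apply, Matrix.vecMulVec_apply,
    smul_eq_mul, Pi.add_apply, Pi.sub_apply, Pi.smul_apply]
  field_simp
  ring

private theorem nh_br [CharZero F] {g : Submodule F (Matrix (Fin n) (Fin n) F)} :
    ∀ X ∈ nh g, ∀ Y ∈ nh g, X * Y - Y * X ∈ nh g := by
  intro X hX Y hY
  induction hX using Submodule.span_induction with
  | mem X hX' =>
    obtain ⟨h1, v, φ, rfl, h2⟩ := hX'
    induction hY using Submodule.span_induction with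
    | mem Y hY' =>
      obtain ⟨h3, w, ψ, rfl, h4⟩ := hY'
      exact nh_br1 h1 h2 h3 h4
    | zero => rw [mul_zero, zero_mul, sub_zero]; exact (nh g).zero_mem
    | add Y Z _ _ h3 h4 =>
      have h5 := (nh g).add_mem h3 h4
      convert h5 using 1
      rw [mul_add, add_mul]
      abel
    | smul c Y _ h3 =>
      have h5 := (nh g).smul_mem c h3
      rwa [smul_sub, ← Matrix.mul_smul, ← Matrix.smul_mul] at h5
  | zero => rw [mul_zero, zero_mul, sub_zero]; exact (nh g).zero_mem
  | add X Z _ _ h3 h4 =>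
    have h5 := (nh g).add_mem h3 h4
    convert h5 using 1
    rw [mul_add, add_mul]
    abel
  | smul c X _ h3 =>
    have h5 := (nh g).smul_mem c h3
    convert h5 using 1
    rw [smul_sub, Matrix.smul_mul, Matrix.mul_smul]

private theorem nh_tr {g : Submodule F (Matrix (Fin n) (Fin n) F)} :
    ∀ X ∈ nh g, X.trace = 0 := by
  intro X hX
  induction hX using Submodule.span_induction with
  | mem X hX' =>
    obtain ⟨h1, v, φ, rfl, h2⟩ := hX'
    rw [Matrix.trace_vecMulVec, dotProduct_comm, h2]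
  | zero => exact Matrix.trace_zero _ _
  | add X Z _ _ h3 h4 => rw [Matrix.trace_add, h3, h4, add_zero]
  | smul c X _ h3 => rw [Matrix.trace_smul, h3, smul_zero]

private theorem nh_sp {g : Submodule F (Matrix (Fin n) (Fin n) F)} :
    nh g ≤ Submodule.span F {X | X ∈ nh g ∧ ∃ v φ, X = Matrix.vecMulVec v φ} :=
  Submodule.span_mono fun X hX => by
    obtain ⟨h1, v, φ, h2, h3⟩ := hX
    exact ⟨Submodule.subset_span ⟨h1, v, φ, h2, h3⟩, v, φ, h2⟩

/-- the part of rank one of a transvection which normalises `g` -/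
private theorem nrm_tv [CharZero F] {g : Submodule F (Matrix (Fin n) (Fin n) F)} {c : F}
    {v φ : Fin n → F} (hc : c ≠ 0) (hv : φ ⬝ᵥ v = 0)
    (hs : ∀ X ∈ g, (c • (1 + Matrix.vecMulVec v φ)) * X * (c • (1 + Matrix.vecMulVec v φ))⁻¹ ∈ g) :
    Matrix.vecMulVec v φ ∈ nrm g := by
  have hE : Matrix.vecMulVec v φ * Matrix.vecMulVec v φ = 0 := by
    rw [vv_mul, hv, zero_smul]
  set E := Matrix.vecMulVec v φ with hEdef
  have hinv : (c • (1 + E))⁻¹ = c⁻¹ • (1 - E) := by
    refine Matrix.inv_eq_right_inv ?_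
    rw [smul_mul_smul_comm, mul_inv_cancel₀ hc, one_smul]
    calc (1 + E) * (1 - E) = 1 - E * E := by noncomm_ring
      _ = 1 := by rw [hE, sub_zero]
  have h1 : ∀ X ∈ g, X + (E * X - X * E) - E * X * E ∈ g := by
    intro X hX
    have h2 := hs X hX
    rw [hinv, Matrix.smul_mul, Matrix.smul_mul, Matrix.mul_smul, smul_smul, mul_inv_cancel₀ hc,
      one_smul] at h2
    convert h2 using 1
    noncomm_ring
  intro X hX
  have h2 := h1 X hX
  have h3 := h1 _ h2
  have h4 : E * (X + (E * X - X * E) - E * X * E) = E * X - E * X * E := by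
    calc E * (X + (E * X - X * E) - E * X * E) = E * X - E * X * E + (E * E) * X - (E * E) * X * E := by
          noncomm_ring
      _ = E * X - E * X * E := by rw [hE]; simp
  have h5 : (X + (E * X - X * E) - E * X * E) * E = X * E + E * X * E := by
    calc (X + (E * X - X * E) - E * X * E) * E =
          X * E + E * X * E - X * (E * E) - E * X * (E * E) := by noncomm_ring
      _ = X * E + E * X * E := by rw [hE]; simp
  have h6 : (E * X - E * X * E) * E = E * X * E := by
    calc (E * X - E * X * E) * E = E * X * E - E * X * (E * E) := by noncomm_ring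
      _ = E * X * E := by rw [hE]; simp
  rw [h4, h5, h6] at h3
  have h7 := g.smul_mem (2 : F)⁻¹ (g.sub_mem (g.sub_mem (g.smul_mem (4 : F) h2) h3)
    (g.smul_mem (3 : F) hX))
  convert h7 using 1
  ext i j
  simp only [Matrix.sub_apply, Matrix.add_apply, Matrix.smul_apply, smul_eq_mul]
  field_simp
  ring

/-- if all subspaces are trivial, a matrix of trace zero is zero -/
private theorem small (irr : ∀ U : Submodule F (Fin n → F), U = ⊥ ∨ U = ⊤)
    (X : Matrix (Fin n) (Fin n) F) (hX : X.trace = 0) : X = 0 := by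
  have hsub : ∀ i j : Fin n, i = j := by
    intro i j
    by_contra hij
    rcases irr (Submodule.span F {(Pi.single i 1 : Fin n → F)}) with h1 | h1
    · rw [Submodule.span_singleton_eq_bot] at h1
      have h2 := congrFun h1 i
      rw [Pi.single_eq_same] at h2
      exact one_ne_zero h2
    · have h2 : (Pi.single j 1 : Fin n → F) ∈ Submodule.span F {(Pi.single i 1 : Fin n → F)} := by
        rw [h1]
        exact Submodule.mem_top
      obtain ⟨c, hc⟩ := Submodule.mem_span_singleton.1 h2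
      have h3 := congrFun hc j
      rw [Pi.smul_apply, Pi.single_eq_same, Pi.single_eq_of_ne (Ne.symm hij), smul_zero] at h3
      exact zero_ne_one h3
  ext i j
  rw [← hsub i j, Matrix.zero_apply, ← hX, Matrix.trace, Finset.sum_eq_single i]
  · rfl
  · intro k _ hk
    exact absurd (hsub k i) hk
  · intro h1
    exact absurd (Finset.mem_univ i) h1

private theorem t_sl [CharZero F] (g : Submodule F (Matrix (Fin n) (Fin n) F))
    (br : ∀ X ∈ g, ∀ Y ∈ g, X * Y - Y * X ∈ g)
    (hirr : ∀ U : Submodule F (Fin n → F), (∀ X ∈ g, ∀ u ∈ U, X.mulVec u ∈ U) → U = ⊥ ∨ U = ⊤)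
    (hsl : ∀ X : Matrix (Fin n) (Fin n) F, X.trace = 0 → X ∈ nrm g)
    {v φ : Fin n → F} (hv : φ ⬝ᵥ v = 1) (X : Matrix (Fin n) (Fin n) F) (hX : X.trace = 0) :
    X ∈ g := by
  have hn : (n : F) ≠ 0 := by
    rw [Nat.cast_ne_zero]
    rintro rfl
    rw [Subsingleton.elim v 0, dotProduct_zero] at hv
    exact zero_ne_one hv
  have he : Matrix.vecMulVec v φ * Matrix.vecMulVec v φ = Matrix.vecMulVec v φ := by
    rw [vv_mul, hv, one_smul]
  have h1 : Matrix.vecMulVec v φ ∈ nrm g := by
    have h2 : Matrix.vecMulVec v φ - (n : F)⁻¹ • 1 ∈ nrm g := by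
      apply hsl
      rw [Matrix.trace_sub, Matrix.trace_smul, Matrix.trace_one, Fintype.card_fin, smul_eq_mul,
        inv_mul_cancel₀ hn, Matrix.trace_vecMulVec, dotProduct_comm, hv, sub_self]
    have h3 : (1 : Matrix (Fin n) (Fin n) F) ∈ nrm g := by
      intro X hX
      rw [one_mul, mul_one, sub_self]
      exact g.zero_mem
    have h4 := (nrm g).add_mem h2 ((nrm g).smul_mem (n : F)⁻¹ h3)
    rwa [sub_add_cancel] at h4
  refine g_full g br hirr v φ hv (fun X hX => ?_) X hX
  set e := Matrix.vecMulVec v φ with hedef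
  have d1 := h1 X hX
  have d2 := h1 _ d1
  have e2 : e * (e * X - X * e) - (e * X - X * e) * e = e * X + X * e - (2 : F) • (e * X * e) := by
    have h5 : e * (e * X - X * e) - (e * X - X * e) * e =
        (e * e) * X + X * (e * e) - (2 : ℤ) • (e * X * e) := by noncomm_ring
    rw [h5, he]
    congr 1
    rw [two_smul, two_smul]
  rw [e2] at d2
  constructor
  · have h6 := g.smul_mem (2 : F)⁻¹ (g.add_mem d2 d1)
    convert h6 using 1
    rw [mul_sub, mul_one]
    ext i j
    simp only [Matrix.sub_apply, Matrix.add_apply, Matrix.smul_apply, smul_eq_mul]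
    field_simp
    ring
  · have h6 := g.smul_mem (2 : F)⁻¹ (g.sub_mem d2 d1)
    convert h6 using 1
    rw [sub_mul, one_mul, sub_mul]
    ext i j
    simp only [Matrix.sub_apply, Matrix.add_apply, Matrix.smul_apply, smul_eq_mul]
    field_simp
    ring

theorem t_full [CharZero F] (g : Submodule F (Matrix (Fin n) (Fin n) F))
    (br : ∀ X ∈ g, ∀ Y ∈ g, X * Y - Y * X ∈ g)
    (tr : ∀ X ∈ g, X.trace = 0) (hne : ∃ X ∈ g, X ≠ 0)
    (T : Set (Matrix (Fin n) (Fin n) F))
    (hT : ∀ s ∈ T, IsUnit s.det ∧ ∀ X ∈ g, s * X * s⁻¹ ∈ g)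
    (irr : ∀ U : Submodule F (Fin n → F),
      (∀ s ∈ T, (∃ t, t ≠ -1 ∧ IsTw t s) → ∀ u ∈ U, s.mulVec u ∈ U) → U = ⊥ ∨ U = ⊤)
    (alt : n ≠ 2 → ∀ J : Matrix (Fin n) (Fin n) F, J.transpose = -J →
      (∀ s ∈ T, ∃ c : F, s.transpose * J * s = c • J) → J = 0)
    (X : Matrix (Fin n) (Fin n) F) (hX : X.trace = 0) : X ∈ g := by
  classical
  have hirr := h_irr g tr hne {s | s ∈ T ∧ ∃ t, t ≠ -1 ∧ IsTw t s}
    (fun s hs => ⟨(hT s hs.1).1, hs.2, (hT s hs.1).2⟩)
    (fun U hU => irr U fun s hs h u hu => hU s ⟨hs, h⟩ u hu)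
  by_cases h : ∃ s ∈ T, ∃ t, t ≠ 1 ∧ t ≠ -1 ∧ IsTw t s
  · obtain ⟨s, hs, t, h1, h2, h3⟩ := h
    have h0 := tw_ne (hT s hs).1 h3
    obtain ⟨c, v, φ, hc, hv, rfl⟩ := tw_rf h1 h3
    exact g_full g br hirr v φ hv (g_parts g h0 h1 h2 c hc v φ hv (hT _ hs).2) X hX
  have ht1 : ∀ s ∈ T, ∀ t, t ≠ -1 → IsTw t s → t = 1 := by
    intro s hs t h1 h2
    by_contra h3
    exact h ⟨s, hs, t, h3, h1, h2⟩
  have hirr' : ∀ U : Submodule F (Fin n → F),
      (∀ X ∈ nh g, ∀ u ∈ U, X.mulVec u ∈ U) → U = ⊥ ∨ U = ⊤ := by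
    intro U hU
    refine irr U ?_
    rintro s hs ⟨t, h1, h2⟩ u hu
    have h3 := ht1 s hs t h1 h2
    subst h3
    obtain ⟨c, v, φ, hc, hv, rfl⟩ := h2
    rw [sub_self] at hv
    have h4 : Matrix.vecMulVec v φ ∈ nh g :=
      Submodule.subset_span ⟨nrm_tv hc hv (hT _ hs).2, v, φ, rfl, hv⟩
    rw [Matrix.smul_mulVec, Matrix.add_mulVec, Matrix.one_mulVec]
    exact U.smul_mem c (U.add_mem hu (hU _ h4 u hu))
  have R : Rk (nh g) := ⟨nh_br, nh_tr, nh_sp, hirr'⟩
  have hne' : ∃ X ∈ nh g, X ≠ 0 := by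
    by_contra hcon
    push Not at hcon
    obtain ⟨Y, hY, hY0⟩ := hne
    refine hY0 (small (fun U => hirr' U fun X hX u hu => ?_) Y (tr Y hY))
    rw [hcon X hX, Matrix.zero_mulVec]
    exact U.zero_mem
  obtain ⟨v, φ, w, ψ, P⟩ := R.pair hne'
  by_cases hK : ∀ a, φ ⬝ᵥ a = 0 → ψ ⬝ᵥ a = 0 → Matrix.vecMulVec a φ ∈ nh g
  · exact t_sl g br hirr (fun Y hY => nh_le g (P.sl R hK Y hY)) P.vw X hX
  exfalso
  push Not at hK
  obtain ⟨hn2, f, hf0, halt, hpres, hrk⟩ := P.form R hK
  have hpol : ∀ x y, f x ⬝ᵥ y = - (f y ⬝ᵥ x) := by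
    intro x y
    have h1 := halt (x + y)
    rw [map_add, add_dotProduct, dotProduct_add, dotProduct_add, halt, halt, zero_add,
      add_zero] at h1
    exact eq_neg_of_add_eq_zero_left h1
  have hinj : ∀ x, f x = 0 → x = 0 := by
    intro x hx
    rcases hirr' (LinearMap.ker f) (by
      intro X hX u hu
      rw [LinearMap.mem_ker] at hu ⊢
      rw [hpres X hX, hu, Matrix.zero_vecMul, neg_zero]) with h1 | h1
    · have h2 : x ∈ LinearMap.ker f := hx
      rw [h1] at h2
      exact (Submodule.mem_bot F).1 h2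
    · exact absurd (LinearMap.ker_eq_top.1 h1) hf0
  have hJm : ∀ x, (LinearMap.toMatrix' f).mulVec x = f x := fun x => by
    rw [← Matrix.toLin'_apply, Matrix.toLin'_toMatrix']
  have hJ0 := alt hn2 (LinearMap.toMatrix' f) (by
    ext i j
    rw [Matrix.transpose_apply, Matrix.neg_apply, LinearMap.toMatrix'_apply,
      LinearMap.toMatrix'_apply]
    have h1 := hpol (Pi.single i 1) (Pi.single j 1)
    rw [dotProduct_single, dotProduct_single, mul_one, mul_one] at h1
    convert h1 using 2) (by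
    intro s hs
    have hu := (hT s hs).1
    have e1 : s⁻¹ * s = 1 := Matrix.nonsing_inv_mul s hu
    have e2 : s * s⁻¹ = 1 := Matrix.mul_nonsing_inv s hu
    have hinvg := Irr_conj g s hu (hT s hs).2
    have hcn : ∀ Y ∈ nrm g, s * Y * s⁻¹ ∈ nrm g := by
      intro Y hY Z hZ
      have h1 := (hT s hs).2 _ (hY _ (hinvg Z hZ))
      convert h1 using 1
      have h2 : s * (Y * (s⁻¹ * Z * s) - s⁻¹ * Z * s * Y) * s⁻¹ =
          s * Y * s⁻¹ * Z * (s * s⁻¹) - (s * s⁻¹) * Z * (s * Y * s⁻¹) := by noncomm_ring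
      rw [h2, e2, mul_one, one_mul]
    have hsv : ∀ y η, Matrix.vecMulVec y η ∈ nh g →
        Matrix.vecMulVec (s.mulVec y) (Matrix.vecMul η s⁻¹) ∈ nh g := by
      intro y η h1
      have h2 := hcn _ (nh_le g h1)
      rw [Matrix.mul_vecMulVec, Matrix.vecMulVec_mul] at h2
      refine Submodule.subset_span ⟨h2, _, _, rfl, ?_⟩
      rw [← Matrix.dotProduct_mulVec, Matrix.mulVec_mulVec, e1, Matrix.one_mulVec]
      exact R.dot h1
    have hch : ∀ Y ∈ nh g, s * Y * s⁻¹ ∈ nh g := by
      refine R.ind ?_ ?_ ?_ ?_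
      · intro y η h1
        rw [Matrix.mul_vecMulVec, Matrix.vecMulVec_mul]
        exact hsv y η h1
      · rw [mul_zero, zero_mul]; exact (nh g).zero_mem
      · intro Y Z h1 h2
        rw [mul_add, add_mul]
        exact (nh g).add_mem h1 h2
      · intro c Y h1
        rw [Matrix.mul_smul, Matrix.smul_mul]
        exact (nh g).smul_mem c h1
    let f' : (Fin n → F) →ₗ[F] (Fin n → F) :=
      { toFun := fun x => Matrix.vecMul (f (s.mulVec x)) s
        map_add' := fun x y => by rw [Matrix.mulVec_add, map_add, Matrix.add_vecMul]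
        map_smul' := fun c x => by
          rw [Matrix.mulVec_smul, map_smul, Matrix.smul_vecMul]; rfl }
    have hf' : ∀ x, f' x = Matrix.vecMul (f (s.mulVec x)) s := fun x => rfl
    have hpres' : ∀ X ∈ nh g, ∀ x, f' (X.mulVec x) = - Matrix.vecMul (f' x) X := by
      intro X hX x
      have h1 : s.mulVec (X.mulVec x) = (s * X * s⁻¹).mulVec (s.mulVec x) := by
        rw [Matrix.mulVec_mulVec, Matrix.mulVec_mulVec, mul_assoc (s * X), e1, mul_one]
      rw [hf', h1, hpres _ (hch X hX), Matrix.neg_vecMul, Matrix.vecMul_vecMul, mul_assoc (s * X),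
        e1, mul_one, hf', Matrix.vecMul_vecMul]
    have hφ0 : φ ≠ 0 := by
      rintro rfl
      have := P.vw
      rw [zero_dotProduct] at this
      exact zero_ne_one this
    obtain ⟨c1, hc1⟩ := hrk v φ P.e hφ0
    have hc10 : c1 ≠ 0 := by
      rintro rfl
      rw [zero_smul] at hc1
      exact P.v_ne (hinj v hc1)
    obtain ⟨c2, hc2⟩ := hrk _ _ (hsv v φ P.e) (by
      intro h1
      apply hφ0
      have h2 := congrArg (fun z => Matrix.vecMul z s) h1
      simp only [Matrix.vecMul_vecMul, e1, Matrix.vecMul_one, Matrix.zero_vecMul] at h2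
      exact h2)
    have hv2 : f' v = (c2 * c1⁻¹) • f v := by
      rw [hf', hc2, Matrix.smul_vecMul, Matrix.vecMul_vecMul, e1, Matrix.vecMul_one, hc1,
        smul_smul, mul_assoc, inv_mul_cancel₀ hc10, mul_one]
    have hW : LinearMap.ker (f' - (c2 * c1⁻¹) • f) = ⊤ := by
      rcases hirr' (LinearMap.ker (f' - (c2 * c1⁻¹) • f)) (by
        intro X hX u hu
        rw [LinearMap.mem_ker, LinearMap.sub_apply, LinearMap.smul_apply] at hu ⊢
        rw [hpres' X hX, hpres X hX, sub_eq_zero.1 hu, Matrix.smul_vecMul, smul_neg, sub_self])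
        with h1 | h1
      · have h2 : v ∈ LinearMap.ker (f' - (c2 * c1⁻¹) • f) := by
          rw [LinearMap.mem_ker, LinearMap.sub_apply, LinearMap.smul_apply, hv2, sub_self]
        rw [h1] at h2
        exact absurd ((Submodule.mem_bot F).1 h2) P.v_ne
      · exact h1
    refine ⟨c2 * c1⁻¹, ?_⟩
    have h3 : ∀ x, (s.transpose * LinearMap.toMatrix' f * s).mulVec x =
        ((c2 * c1⁻¹) • LinearMap.toMatrix' f).mulVec x := by
      intro x
      rw [← Matrix.mulVec_mulVec, ← Matrix.mulVec_mulVec, hJm, Matrix.mulVec_transpose,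
        Matrix.smul_mulVec, hJm]
      have h4 : x ∈ LinearMap.ker (f' - (c2 * c1⁻¹) • f) := by rw [hW]; trivial
      rw [LinearMap.mem_ker, LinearMap.sub_apply, LinearMap.smul_apply] at h4
      exact sub_eq_zero.1 h4
    exact Matrix.mulVec_injective (funext h3))
  apply hf0
  refine LinearMap.ext fun x => ?_
  rw [← hJm, hJ0, Matrix.zero_mulVec, LinearMap.zero_apply]

end Pool.Agent.MUH
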