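import Pool.Agent.MUH.Big
import Pool.Agent.MUH.Defs
import Pool.Agent.MUG.Img
import Pool.Agent.MUW.Main

/-!
# MUH: the Tate property for all tensor words in an object of twist type
-/

set_option linter.unusedSectionVars false
set_option linter.unusedVariables false

namespace Pool.Agent.MUH

open CategoryTheory MonoidalCategory Limits TensorProduct Pool.Agent.KTT Pool.Agent.MUT
  Pool.Agent.MUW Pool.Agent.MUG

universe v u w w'

variable {C : Type u} [Category.{v} C] [Preadditive C] [HasBinaryBiproducts C]
  [MonoidalCategory C] [MonoidalPreadditive C] [RightRigidCategory C] [BraidedCategory C]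
  {F : Type w} [Field F] [CharZero F] [IsAlgClosed F] {H : C ⥤ ModuleCat.{w} F} [H.Additive]
  [H.Monoidal] {G : Type w'} [Group G] {ρ : G →* Aut H} {B : C}

/-- The hypothesis `TwistType` implies `WeilType`. -/
noncomputable def TwistType.weil (M : TwistType H ρ B) : WeilType H ρ B where
  tens := M.tens
  l := M.l
  r := M.r
  V := M.V
  b := M.b
  braid := M.braid
  R := M.R
  unit := M.unit
  tensor := M.tensor
  dual := M.dual
  tate := M.tate
  det := M.det
  dense := big (ker_grp H ρ M.R M.b) (ker_sl H ρ M.tens M.R M.b fun i => by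
    obtain ⟨D, hD, -, h, f, -, hf⟩ := M.det i
    exact ⟨fun h0 => hf (by rw [h0, map_zero]), D, hD, h⟩) M.twists
  gen := M.gen

theorem twist_words (M : TwistType H ρ B) {W : C} (h : Word B W) :
    fixed H ρ W ≤ alg H W ∧ Semisimple H ρ W := weil_words M.weil h

end Pool.Agent.MUH
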