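import Pool.Agent.MUW.Mat

/-!
# MUH: Lie algebras spanned by nilpotent matrices of rank one, part A

Let `h` be an irreducible Lie algebra spanned by nilpotent matrices of rank one. There are `v φ`, `w ψ` in `h` with
`φ v = ψ w = 0`, `φ w = ψ v = 1`.
-/

set_option linter.unusedSectionVars false
set_option linter.unusedVariables false

namespace Pool.Agent.MUH

universe w

variable {F : Type w} [Field F] {n : ℕ}

/-- an irreducible Lie algebra of matrices of trace zero spanned by matrices of rank one -/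
structure Rk (h : Submodule F (Matrix (Fin n) (Fin n) F)) : Prop where
  br : ∀ X ∈ h, ∀ Y ∈ h, X * Y - Y * X ∈ h
  tr : ∀ X ∈ h, X.trace = 0
  sp : h ≤ Submodule.span F {X | X ∈ h ∧ ∃ v φ, X = Matrix.vecMulVec v φ}
  irr : ∀ U : Submodule F (Fin n → F), (∀ X ∈ h, ∀ u ∈ U, X.mulVec u ∈ U) → U = ⊥ ∨ U = ⊤

theorem vv_mul (a b c d : Fin n → F) : Matrix.vecMulVec a b * Matrix.vecMulVec c d =
    (b ⬝ᵥ c) • Matrix.vecMulVec a d := by
  rw [Matrix.vecMulVec_mul_vecMulVec, Matrix.vecMulVec_smul]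

theorem vv_vec (a b y : Fin n → F) : (Matrix.vecMulVec a b).mulVec y = (b ⬝ᵥ y) • a := by
  ext i
  simp only [Matrix.mulVec, dotProduct, Matrix.vecMulVec_apply, Pi.smul_apply, smul_eq_mul]
  rw [Finset.sum_mul]
  exact Finset.sum_congr rfl fun j _ => by ring

variable {h : Submodule F (Matrix (Fin n) (Fin n) F)}

theorem Rk.dot (R : Rk h) {a b : Fin n → F} (hab : Matrix.vecMulVec a b ∈ h) : b ⬝ᵥ a = 0 := by
  have h1 := R.tr _ hab
  rwa [Matrix.trace_vecMulVec, dotProduct_comm] at h1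

theorem Rk.br2 (R : Rk h) {a b c d : Fin n → F} (h1 : Matrix.vecMulVec a b ∈ h)
    (h2 : Matrix.vecMulVec c d ∈ h) :
    (b ⬝ᵥ c) • Matrix.vecMulVec a d - (d ⬝ᵥ a) • Matrix.vecMulVec c b ∈ h := by
  have h3 := R.br _ h1 _ h2
  rwa [vv_mul, vv_mul] at h3

theorem Rk.brX (R : Rk h) {X : Matrix (Fin n) (Fin n) F} (hX : X ∈ h) {a b : Fin n → F}
    (h1 : Matrix.vecMulVec a b ∈ h) :
    Matrix.vecMulVec (X.mulVec a) b - Matrix.vecMulVec a (Matrix.vecMul b X) ∈ h := by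
  have h3 := R.br _ hX _ h1
  rwa [Matrix.mul_vecMulVec, Matrix.vecMulVec_mul] at h3

/-- conjugation by `1 + s v φ` -/
theorem Rk.conj (R : Rk h) {a b c d : Fin n → F} (h1 : Matrix.vecMulVec a b ∈ h)
    (h2 : Matrix.vecMulVec c d ∈ h) (s : F) :
    Matrix.vecMulVec (c + (s * (b ⬝ᵥ c)) • a) (d - (s * (d ⬝ᵥ a)) • b) ∈ h := by
  have h3 := h.sub_mem (h.add_mem h2 (h.smul_mem s (R.br2 h1 h2)))
    (h.smul_mem (s * (b ⬝ᵥ c) * (s * (d ⬝ᵥ a))) h1)
  convert h3 using 1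
  ext i j
  simp only [Matrix.sub_apply, Matrix.add_apply, Matrix.smul_apply, Matrix.vecMulVec_apply,
    smul_eq_mul, Pi.add_apply, Pi.sub_apply, Pi.smul_apply]
  ring

theorem Rk.stab (R : Rk h) (U : Submodule F (Fin n → F))
    (hU : ∀ a b, Matrix.vecMulVec a b ∈ h → ∀ u ∈ U, (b ⬝ᵥ u) • a ∈ U) : U = ⊥ ∨ U = ⊤ := by
  refine R.irr U fun X hX u hu => ?_
  have h1 := R.sp hX
  induction h1 using Submodule.span_induction with
  | mem X hX' =>
    obtain ⟨h2, a, b, rfl⟩ := hX'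
    rw [vv_vec]
    exact hU a b h2 u hu
  | zero => rw [Matrix.zero_mulVec]; exact U.zero_mem
  | add X Y hX' hY' h2 h3 =>
    rw [Matrix.add_mulVec]
    refine U.add_mem (h2 ?_) (h3 ?_)
    · exact (Submodule.span_le.2 fun Z hZ => hZ.1) hX'
    · exact (Submodule.span_le.2 fun Z hZ => hZ.1) hY'
  | smul c X hX' h2 =>
    rw [Matrix.smul_mulVec]
    exact U.smul_mem c (h2 ((Submodule.span_le.2 fun Z hZ => hZ.1) hX'))

/-- something linear which is true for the matrices of rank one in `h` -/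
theorem Rk.ind (R : Rk h) {P : Matrix (Fin n) (Fin n) F → Prop}
    (h1 : ∀ a b, Matrix.vecMulVec a b ∈ h → P (Matrix.vecMulVec a b)) (h0 : P 0)
    (h2 : ∀ X Y, P X → P Y → P (X + Y)) (h3 : ∀ (c : F) X, P X → P (c • X)) :
    ∀ X ∈ h, P X := by
  intro X hX
  have h4 := R.sp hX
  clear hX
  induction h4 using Submodule.span_induction with
  | mem X hX' =>
    obtain ⟨h2, a, b, rfl⟩ := hX'
    exact h1 a b h2
  | zero => exact h0
  | add X Y _ _ h4 h5 => exact h2 X Y h4 h5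
  | smul c X _ h4 => exact h3 c X h4

/-- `v φ`, `w ψ` in `h`, `φ v = ψ w = 0`, `φ w = ψ v = 1` -/
structure Pr (h : Submodule F (Matrix (Fin n) (Fin n) F)) (v φ w ψ : Fin n → F) : Prop where
  e : Matrix.vecMulVec v φ ∈ h
  f : Matrix.vecMulVec w ψ ∈ h
  vv : φ ⬝ᵥ v = 0
  ww : ψ ⬝ᵥ w = 0
  vw : φ ⬝ᵥ w = 1
  wv : ψ ⬝ᵥ v = 1

theorem Rk.pair [CharZero F] (R : Rk h) (hne : ∃ X ∈ h, X ≠ 0) : ∃ v φ w ψ, Pr h v φ w ψ := by
  -- a matrix `v φ ≠ 0` in `h`
  obtain ⟨v, φ, hE, hE0⟩ : ∃ v φ, Matrix.vecMulVec v φ ∈ h ∧ Matrix.vecMulVec v φ ≠ 0 := by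
    by_contra hcon
    push Not at hcon
    obtain ⟨X, hX, hX0⟩ := hne
    refine hX0 (R.ind (P := fun X => X = 0) (fun a b hab => hcon a b hab) rfl ?_ ?_ X hX)
    · rintro X Y rfl rfl
      exact add_zero 0
    · rintro c X rfl
      exact smul_zero c
  have hv0 : v ≠ 0 := by
    rintro rfl
    exact hE0 (Matrix.zero_vecMulVec φ)
  have hφ0 : φ ≠ 0 := by
    rintro rfl
    exact hE0 (Matrix.vecMulVec_zero v)
  have hvφ := R.dot hE
  -- the statement up to a scaling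
  suffices hs : ∃ w ψ, Matrix.vecMulVec w ψ ∈ h ∧ φ ⬝ᵥ w ≠ 0 ∧ ψ ⬝ᵥ v ≠ 0 by
    obtain ⟨w, ψ, hF, h1, h2⟩ := hs
    have hF' : Matrix.vecMulVec ((φ ⬝ᵥ w)⁻¹ • w) ((ψ ⬝ᵥ v)⁻¹ • ψ) ∈ h := by
      rw [Matrix.smul_vecMulVec, Matrix.vecMulVec_smul]
      exact h.smul_mem _ (h.smul_mem _ hF)
    refine ⟨v, φ, (φ ⬝ᵥ w)⁻¹ • w, (ψ ⬝ᵥ v)⁻¹ • ψ, hE, hF', hvφ, R.dot hF', ?_, ?_⟩
    · rw [dotProduct_smul, smul_eq_mul, inv_mul_cancel₀ h1]
    · rw [smul_dotProduct, smul_eq_mul, inv_mul_cancel₀ h2]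
  by_contra hcon
  push Not at hcon
  have H : ∀ w ψ, Matrix.vecMulVec w ψ ∈ h → ψ ⬝ᵥ v ≠ 0 → φ ⬝ᵥ w = 0 := by
    intro w ψ h1 h2
    by_contra h3
    exact h2 (hcon w ψ h1 h3)
  -- `a`
  obtain ⟨w0, ψ0, hw0, hψ0, hw00⟩ : ∃ w ψ, Matrix.vecMulVec w ψ ∈ h ∧ ψ ⬝ᵥ v ≠ 0 ∧ w ≠ 0 := by
    by_contra hc
    push Not at hc
    have h1 : ∀ a b, Matrix.vecMulVec a b ∈ h → (b ⬝ᵥ v) • a = 0 := by
      intro a b hab
      by_cases h2 : b ⬝ᵥ v = 0
      · rw [h2, zero_smul]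
      · rw [hc a b hab h2, smul_zero]
    rcases R.stab (Submodule.span F {v}) (fun a b hab u hu => by
      obtain ⟨c, rfl⟩ := Submodule.mem_span_singleton.1 hu
      rw [dotProduct_smul, smul_assoc, h1 a b hab, smul_zero]
      exact Submodule.zero_mem _) with h2 | h2
    · exact hv0 ((Submodule.mem_bot F).1 (h2 ▸ Submodule.mem_span_singleton_self v))
    · refine hφ0 (dotProduct_eq_zero φ fun x => ?_)
      have h3 : x ∈ Submodule.span F {v} := by rw [h2]; trivial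
      obtain ⟨c, rfl⟩ := Submodule.mem_span_singleton.1 h3
      rw [dotProduct_smul, hvφ, smul_zero]
  -- `b`
  obtain ⟨u, χ, hu, hu1, hχ⟩ : ∃ u χ, Matrix.vecMulVec u χ ∈ h ∧ φ ⬝ᵥ u ≠ 0 ∧ χ ≠ 0 := by
    by_contra hc
    push Not at hc
    let U : Submodule F (Fin n → F) :=
      { carrier := {x | φ ⬝ᵥ x = 0}
        add_mem' := by
          intro a b ha hb
          show φ ⬝ᵥ (a + b) = 0
          rw [dotProduct_add, show φ ⬝ᵥ a = 0 from ha, show φ ⬝ᵥ b = 0 from hb, add_zero]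
        zero_mem' := dotProduct_zero φ
        smul_mem' := by
          intro c a ha
          show φ ⬝ᵥ (c • a) = 0
          rw [dotProduct_smul, show φ ⬝ᵥ a = 0 from ha, smul_zero] }
    rcases R.stab U (fun a b hab u hu => by
      show φ ⬝ᵥ ((b ⬝ᵥ u) • a) = 0
      rw [dotProduct_smul]
      by_cases h2 : φ ⬝ᵥ a = 0
      · rw [h2, smul_zero]
      · rw [hc a b hab h2, zero_dotProduct, zero_smul]) with h2 | h2
    · exact hv0 ((Submodule.mem_bot F).1 (h2 ▸ (show v ∈ U from hvφ)))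
    · refine hφ0 (dotProduct_eq_zero φ fun x => ?_)
      have h3 : x ∈ U := by rw [h2]; trivial
      exact h3
  have hχv : χ ⬝ᵥ v = 0 := by
    by_contra h1
    exact hu1 (H u χ hu h1)
  -- `c`
  have hU : Submodule.span F {w | ∃ ψ, Matrix.vecMulVec w ψ ∈ h ∧ ψ ⬝ᵥ v ≠ 0} = ⊤ := by
    rcases R.stab (Submodule.span F {w | ∃ ψ, Matrix.vecMulVec w ψ ∈ h ∧ ψ ⬝ᵥ v ≠ 0}) (by
      intro y η hyη x hx
      induction hx using Submodule.span_induction with
      | mem w hw =>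
        obtain ⟨ψ, h1, h2⟩ := hw
        obtain ⟨s, hs, hs'⟩ : ∃ s : F, s ≠ 0 ∧ (ψ - (s * (ψ ⬝ᵥ y)) • η) ⬝ᵥ v ≠ 0 := by
          by_contra hc
          push Not at hc
          have h3 := hc 1 one_ne_zero
          have h4 := hc (-1) (neg_ne_zero.2 one_ne_zero)
          rw [sub_dotProduct, smul_dotProduct, smul_eq_mul] at h3 h4
          apply h2
          have h5 : (2 : F) * (ψ ⬝ᵥ v) = 0 := by linear_combination h3 + h4
          exact (mul_eq_zero.1 h5).resolve_left two_ne_zero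
        have h3 := R.conj hyη h1 s
        have h4 : w + (s * (η ⬝ᵥ w)) • y ∈
            Submodule.span F {w | ∃ ψ, Matrix.vecMulVec w ψ ∈ h ∧ ψ ⬝ᵥ v ≠ 0} :=
          Submodule.subset_span ⟨_, h3, hs'⟩
        have h5 : w ∈ Submodule.span F {w | ∃ ψ, Matrix.vecMulVec w ψ ∈ h ∧ ψ ⬝ᵥ v ≠ 0} :=
          Submodule.subset_span ⟨ψ, h1, h2⟩
        have h6 := Submodule.smul_mem _ s⁻¹ (Submodule.sub_mem _ h4 h5)
        rwa [add_sub_cancel_left, smul_smul, ← mul_assoc, inv_mul_cancel₀ hs, one_mul] at h6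
      | zero => rw [dotProduct_zero, zero_smul]; exact Submodule.zero_mem _
      | add x y _ _ h1 h2 => rw [dotProduct_add, add_smul]; exact Submodule.add_mem _ h1 h2
      | smul c x _ h1 => rw [dotProduct_smul, smul_assoc]; exact Submodule.smul_mem _ c h1)
      with h2 | h2
    · have h3 : w0 ∈ Submodule.span F {w | ∃ ψ, Matrix.vecMulVec w ψ ∈ h ∧ ψ ⬝ᵥ v ≠ 0} :=
        Submodule.subset_span ⟨ψ0, hw0, hψ0⟩
      rw [h2, Submodule.mem_bot] at h3
      exact absurd h3 hw00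
    · exact h2
  -- `d`
  refine hχ (dotProduct_eq_zero χ fun x => ?_)
  have hx : x ∈ Submodule.span F {w | ∃ ψ, Matrix.vecMulVec w ψ ∈ h ∧ ψ ⬝ᵥ v ≠ 0} := by
    rw [hU]; trivial
  induction hx using Submodule.span_induction with
  | mem w hw =>
    obtain ⟨ψ, h1, h2⟩ := hw
    have h3 := H w ψ h1 h2
    have h4 := R.conj hu h1 1
    have h5 := H _ _ h4 (by
      rw [sub_dotProduct, smul_dotProduct, hχv, smul_zero, sub_zero]
      exact h2)
    rw [dotProduct_add, h3, zero_add, dotProduct_smul, smul_eq_mul, one_mul] at h5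
    exact (mul_eq_zero.1 h5).resolve_right hu1
  | zero => exact dotProduct_zero χ
  | add x y _ _ h1 h2 => rw [dotProduct_add, h1, h2, add_zero]
  | smul c x _ h1 => rw [dotProduct_smul, h1, smul_zero]

end Pool.Agent.MUH
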