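import Pool.Agent.MUH.RankA

/-!
# MUH: Lie algebras spanned by nilpotent matrices of rank one, part B

`V_0 = ker φ ∩ ker ψ`; `Lm a α`: `a` in `V_0`, `α v = α w = 0` and `a φ + v α` in `h`. Every `a` in `V_0` occurs, and
no `b ≠ 0` in `V_0` is killed by all `α`. If `h` does not contain all `a φ`, it contains none, and no `v α`.
-/

set_option linter.unusedSectionVars false
set_option linter.unusedVariables false

namespace Pool.Agent.MUH

universe w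

variable {F : Type w} [Field F] {n : ℕ} {h : Submodule F (Matrix (Fin n) (Fin n) F)}
  {v φ w ψ : Fin n → F}

theorem Pr.hh (R : Rk h) (P : Pr h v φ w ψ) :
    Matrix.vecMulVec v ψ - Matrix.vecMulVec w φ ∈ h := by
  have h1 := R.br2 P.e P.f
  rwa [P.vw, P.wv, one_smul, one_smul] at h1

theorem Pr.symm (P : Pr h v φ w ψ) : Pr h w ψ v φ := ⟨P.f, P.e, P.ww, P.vv, P.wv, P.vw⟩

/-- `a` in `V_0`, `α v = α w = 0` and `a φ + v α` in `h` -/
structure Lm (h : Submodule F (Matrix (Fin n) (Fin n) F)) (v φ w ψ a α : Fin n → F) : Prop where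
  a1 : φ ⬝ᵥ a = 0
  a2 : ψ ⬝ᵥ a = 0
  α1 : α ⬝ᵥ v = 0
  α2 : α ⬝ᵥ w = 0
  mem : Matrix.vecMulVec a φ + Matrix.vecMulVec v α ∈ h

variable {a α b β : Fin n → F}

theorem Lm.add (h1 : Lm h v φ w ψ a α) (h2 : Lm h v φ w ψ b β) :
    Lm h v φ w ψ (a + b) (α + β) := by
  refine ⟨?_, ?_, ?_, ?_, ?_⟩
  · rw [dotProduct_add, h1.a1, h2.a1, add_zero]
  · rw [dotProduct_add, h1.a2, h2.a2, add_zero]
  · rw [add_dotProduct, h1.α1, h2.α1, add_zero]
  · rw [add_dotProduct, h1.α2, h2.α2, add_zero]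
  · have h3 := h.add_mem h1.mem h2.mem
    rw [Matrix.add_vecMulVec, Matrix.vecMulVec_add]
    convert h3 using 1
    abel

theorem Lm.smul (c : F) (h1 : Lm h v φ w ψ a α) : Lm h v φ w ψ (c • a) (c • α) := by
  refine ⟨?_, ?_, ?_, ?_, ?_⟩
  · rw [dotProduct_smul, h1.a1, smul_zero]
  · rw [dotProduct_smul, h1.a2, smul_zero]
  · rw [smul_dotProduct, h1.α1, smul_zero]
  · rw [smul_dotProduct, h1.α2, smul_zero]
  · rw [Matrix.smul_vecMulVec, Matrix.vecMulVec_smul, ← smul_add]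
    exact h.smul_mem c h1.mem

theorem Lm.sub (h1 : Lm h v φ w ψ a α) (h2 : Lm h v φ w ψ b β) :
    Lm h v φ w ψ (a - b) (α - β) := by
  have h3 := h1.add (h2.smul (-1))
  rwa [neg_one_smul, neg_one_smul, ← sub_eq_add_neg, ← sub_eq_add_neg] at h3

/-- the bracket with `w ψ` -/
theorem Lm.low (R : Rk h) (P : Pr h v φ w ψ) (h1 : Lm h v φ w ψ a α) :
    Matrix.vecMulVec w α - Matrix.vecMulVec a ψ ∈ h := by
  have h3 := R.br _ P.f _ h1.mem
  rw [mul_add, add_mul, vv_mul, vv_mul, vv_mul, vv_mul, P.wv, P.vw, h1.a2, h1.α2, zero_smul,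
    zero_smul, zero_add, add_zero, one_smul, one_smul] at h3
  exact h3

theorem Pr.deg1 (R : Rk h) (P : Pr h v φ w ψ) {X : Matrix (Fin n) (Fin n) F} (hX : X ∈ h) :
    Lm h v φ w ψ (-(X.mulVec v - (ψ ⬝ᵥ X.mulVec v) • v - (φ ⬝ᵥ X.mulVec v) • w))
      (Matrix.vecMul φ X - (φ ⬝ᵥ X.mulVec v) • ψ - (φ ⬝ᵥ X.mulVec w) • φ) := by
  refine ⟨?_, ?_, ?_, ?_, ?_⟩
  · rw [dotProduct_neg, dotProduct_sub, dotProduct_sub, dotProduct_smul, dotProduct_smul, P.vv, P.vw]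
    simp
  · rw [dotProduct_neg, dotProduct_sub, dotProduct_sub, dotProduct_smul, dotProduct_smul, P.wv, P.ww]
    simp
  · rw [sub_dotProduct, sub_dotProduct, smul_dotProduct, smul_dotProduct, P.wv, P.vv,
      ← Matrix.dotProduct_mulVec]
    simp
  · rw [sub_dotProduct, sub_dotProduct, smul_dotProduct, smul_dotProduct, P.ww, P.vw,
      ← Matrix.dotProduct_mulVec]
    simp
  · have h1 := R.brX hX P.e
    have h2 := h.add_mem (h.sub_mem (h.neg_mem h1) (h.smul_mem (φ ⬝ᵥ X.mulVec v) (P.hh R)))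
      (h.smul_mem (ψ ⬝ᵥ X.mulVec v - φ ⬝ᵥ X.mulVec w) P.e)
    convert h2 using 1
    ext i j
    simp only [Matrix.sub_apply, Matrix.add_apply, Matrix.smul_apply, Matrix.vecMulVec_apply,
      Matrix.neg_apply, smul_eq_mul, Pi.add_apply, Pi.sub_apply, Pi.smul_apply, Pi.neg_apply]
    ring

theorem Pr.deg1' (R : Rk h) (P : Pr h v φ w ψ) {X : Matrix (Fin n) (Fin n) F} (hX : X ∈ h) :
    Lm h v φ w ψ (X.mulVec w - (ψ ⬝ᵥ X.mulVec w) • v - (φ ⬝ᵥ X.mulVec w) • w)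
      (Matrix.vecMul ψ X - (ψ ⬝ᵥ X.mulVec v) • ψ - (ψ ⬝ᵥ X.mulVec w) • φ) := by
  refine ⟨?_, ?_, ?_, ?_, ?_⟩
  · rw [dotProduct_sub, dotProduct_sub, dotProduct_smul, dotProduct_smul, P.vv, P.vw]
    simp
  · rw [dotProduct_sub, dotProduct_sub, dotProduct_smul, dotProduct_smul, P.wv, P.ww]
    simp
  · rw [sub_dotProduct, sub_dotProduct, smul_dotProduct, smul_dotProduct, P.wv, P.vv,
      ← Matrix.dotProduct_mulVec]
    simp
  · rw [sub_dotProduct, sub_dotProduct, smul_dotProduct, smul_dotProduct, P.ww, P.vw,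
      ← Matrix.dotProduct_mulVec]
    simp
  · have h1 := h.neg_mem (R.brX hX P.f)
    have h1' := R.br _ P.e _ h1
    rw [mul_neg, neg_mul, mul_sub, sub_mul, vv_mul, vv_mul, vv_mul, vv_mul, P.vw, P.wv,
      ← Matrix.dotProduct_mulVec] at h1'
    have h2 := h.add_mem (h.add_mem h1' (h.smul_mem (-2 * (ψ ⬝ᵥ X.mulVec w)) P.e))
      (h.smul_mem (φ ⬝ᵥ X.mulVec w - ψ ⬝ᵥ X.mulVec v) (P.hh R))
    convert h2 using 1
    ext i j
    simp only [Matrix.sub_apply, Matrix.add_apply, Matrix.smul_apply, Matrix.vecMulVec_apply,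
      Matrix.neg_apply, smul_eq_mul, Pi.add_apply, Pi.sub_apply, Pi.smul_apply, Pi.neg_apply]
    ring

/-- the projection to `V_0` of the bracket of `X` and `a φ + v α` -/
theorem Lm.act (R : Rk h) (P : Pr h v φ w ψ) {X : Matrix (Fin n) (Fin n) F} (hX : X ∈ h)
    (h1 : Lm h v φ w ψ a α) :
    Lm h v φ w ψ
      (X.mulVec a - (ψ ⬝ᵥ X.mulVec a) • v - (φ ⬝ᵥ X.mulVec a) • w - (φ ⬝ᵥ X.mulVec w) • a)
      ((ψ ⬝ᵥ X.mulVec v) • α - (Matrix.vecMul α X - (α ⬝ᵥ X.mulVec v) • ψ -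
        (α ⬝ᵥ X.mulVec w) • φ)) := by
  have h2 := R.br _ hX _ h1.mem
  have h3 := P.deg1' R h2
  rw [mul_add, add_mul, Matrix.mul_vecMulVec, Matrix.mul_vecMulVec, Matrix.vecMulVec_mul,
    Matrix.vecMulVec_mul] at h3
  have e1 : (Matrix.vecMulVec (X.mulVec a) φ + Matrix.vecMulVec (X.mulVec v) α -
      (Matrix.vecMulVec a (Matrix.vecMul φ X) + Matrix.vecMulVec v (Matrix.vecMul α X))).mulVec w =
      X.mulVec a - (φ ⬝ᵥ X.mulVec w) • a - (α ⬝ᵥ X.mulVec w) • v := by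
    rw [Matrix.sub_mulVec, Matrix.add_mulVec, Matrix.add_mulVec, vv_vec, vv_vec, vv_vec, vv_vec,
      P.vw, h1.α2, ← Matrix.dotProduct_mulVec, ← Matrix.dotProduct_mulVec]
    simp only [one_smul, zero_smul, add_zero]
    abel
  have e2 : (Matrix.vecMulVec (X.mulVec a) φ + Matrix.vecMulVec (X.mulVec v) α -
      (Matrix.vecMulVec a (Matrix.vecMul φ X) + Matrix.vecMulVec v (Matrix.vecMul α X))).mulVec v =
      - (φ ⬝ᵥ X.mulVec v) • a - (α ⬝ᵥ X.mulVec v) • v := by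
    rw [Matrix.sub_mulVec, Matrix.add_mulVec, Matrix.add_mulVec, vv_vec, vv_vec, vv_vec, vv_vec,
      P.vv, h1.α1, ← Matrix.dotProduct_mulVec, ← Matrix.dotProduct_mulVec]
    simp only [zero_smul, add_zero, neg_smul]
    abel
  have e3 : Matrix.vecMul ψ (Matrix.vecMulVec (X.mulVec a) φ + Matrix.vecMulVec (X.mulVec v) α -
      (Matrix.vecMulVec a (Matrix.vecMul φ X) + Matrix.vecMulVec v (Matrix.vecMul α X))) =
      (ψ ⬝ᵥ X.mulVec a) • φ + (ψ ⬝ᵥ X.mulVec v) • α - Matrix.vecMul α X := by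
    rw [Matrix.vecMul_sub, Matrix.vecMul_add, Matrix.vecMul_add, Matrix.vecMul_vecMulVec,
      Matrix.vecMul_vecMulVec, Matrix.vecMul_vecMulVec, Matrix.vecMul_vecMulVec, P.wv, h1.a2]
    simp only [one_smul, zero_smul, zero_add]
  rw [e1, e2, e3] at h3
  have s1 : φ ⬝ᵥ (X.mulVec a - (φ ⬝ᵥ X.mulVec w) • a - (α ⬝ᵥ X.mulVec w) • v) =
      φ ⬝ᵥ X.mulVec a := by
    rw [dotProduct_sub, dotProduct_sub, dotProduct_smul, dotProduct_smul, h1.a1, P.vv]
    simp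
  have s2 : ψ ⬝ᵥ (X.mulVec a - (φ ⬝ᵥ X.mulVec w) • a - (α ⬝ᵥ X.mulVec w) • v) =
      ψ ⬝ᵥ X.mulVec a - α ⬝ᵥ X.mulVec w := by
    rw [dotProduct_sub, dotProduct_sub, dotProduct_smul, dotProduct_smul, h1.a2, P.wv]
    simp
  have s3 : ψ ⬝ᵥ (- (φ ⬝ᵥ X.mulVec v) • a - (α ⬝ᵥ X.mulVec v) • v) = - (α ⬝ᵥ X.mulVec v) := by
    rw [dotProduct_sub, dotProduct_smul, dotProduct_smul, h1.a2, P.wv]
    simp
  rw [s1, s2, s3] at h3
  convert h3 using 1
  · ext i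
    simp only [Pi.add_apply, Pi.sub_apply, Pi.smul_apply, Pi.neg_apply, smul_eq_mul]
    ring
  · ext i
    simp only [Pi.add_apply, Pi.sub_apply, Pi.smul_apply, Pi.neg_apply, smul_eq_mul]
    ring

/-- the bracket of `a φ + v α`, `w α' - a' ψ` and `b φ + v β`, for `(a', α') = (a, α)` -/
theorem Lm.tri (R : Rk h) (P : Pr h v φ w ψ) (h1 : Lm h v φ w ψ a α) (h2 : Lm h v φ w ψ b β) :
    Lm h v φ w ψ ((2 * (α ⬝ᵥ b)) • a + (α ⬝ᵥ a) • b)
      (-((2 * (β ⬝ᵥ a)) • α + (α ⬝ᵥ a) • β)) := by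
  refine ⟨?_, ?_, ?_, ?_, ?_⟩
  · rw [dotProduct_add, dotProduct_smul, dotProduct_smul, h1.a1, h2.a1]; simp
  · rw [dotProduct_add, dotProduct_smul, dotProduct_smul, h1.a2, h2.a2]; simp
  · rw [neg_dotProduct, add_dotProduct, smul_dotProduct, smul_dotProduct, h1.α1, h2.α1]; simp
  · rw [neg_dotProduct, add_dotProduct, smul_dotProduct, smul_dotProduct, h1.α2, h2.α2]; simp
  · have h3 := R.br _ h1.mem _ (h1.low R P)
    have h4 := R.br _ h3 _ h2.mem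
    have e : (Matrix.vecMulVec a φ + Matrix.vecMulVec v α) *
        (Matrix.vecMulVec w α - Matrix.vecMulVec a ψ) -
        (Matrix.vecMulVec w α - Matrix.vecMulVec a ψ) *
        (Matrix.vecMulVec a φ + Matrix.vecMulVec v α) =
        (2 : F) • Matrix.vecMulVec a α - (α ⬝ᵥ a) • Matrix.vecMulVec v ψ -
          (α ⬝ᵥ a) • Matrix.vecMulVec w φ := by
      simp only [mul_add, add_mul, mul_sub, sub_mul, vv_mul, P.vw, P.wv, P.vv, P.ww, h1.a1, h1.a2,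
        h1.α1, h1.α2]
      ext i j
      simp only [Matrix.sub_apply, Matrix.add_apply, Matrix.smul_apply, Matrix.vecMulVec_apply,
        smul_eq_mul]
      ring
    rw [e] at h4
    convert h4 using 1
    simp only [mul_add, add_mul, mul_sub, sub_mul, vv_mul, smul_mul_assoc, mul_smul_comm, P.vw, P.wv,
      P.vv, P.ww, h1.a1, h1.a2, h1.α1, h1.α2, h2.a1, h2.a2, h2.α1, h2.α2]
    ext i j
    simp only [Matrix.sub_apply, Matrix.add_apply, Matrix.smul_apply, Matrix.vecMulVec_apply,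
      smul_eq_mul, Pi.add_apply, Pi.sub_apply, Pi.smul_apply, Pi.neg_apply]
    ring

end Pool.Agent.MUH
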