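import Pool.Agent.MUH.RankB

/-!
# MUH: Lie algebras spanned by nilpotent matrices of rank one, part C

If `h` contains all `a φ`, `a` in `V_0`, it contains all matrices of trace zero.
-/

set_option linter.unusedSectionVars false
set_option linter.unusedVariables false

namespace Pool.Agent.MUH

universe w

variable {F : Type w} [Field F] {n : ℕ} {h : Submodule F (Matrix (Fin n) (Fin n) F)}
  {v φ w ψ : Fin n → F}

theorem Pr.v_ne (P : Pr h v φ w ψ) : v ≠ 0 := by
  rintro rfl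
  have := P.wv
  rw [dotProduct_zero] at this
  exact zero_ne_one this

/-- every `a` in `V_0` occurs -/
theorem Pr.ex (R : Rk h) (P : Pr h v φ w ψ) (x : Fin n → F) (h1 : φ ⬝ᵥ x = 0) (h2 : ψ ⬝ᵥ x = 0) :
    ∃ α, Lm h v φ w ψ x α := by
  let U : Submodule F (Fin n → F) :=
    { carrier := {x | ∃ (c d : F) (a α : Fin n → F), Lm h v φ w ψ a α ∧ x = c • v + d • w + a}
      add_mem' := by
        rintro _ _ ⟨c, d, a, α, h3, rfl⟩ ⟨c', d', a', α', h3', rfl⟩
        refine ⟨c + c', d + d', a + a', α + α', h3.add h3', ?_⟩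
        rw [add_smul, add_smul]
        abel
      zero_mem' := by
        refine ⟨0, 0, 0, 0, ⟨dotProduct_zero _, dotProduct_zero _, zero_dotProduct _,
          zero_dotProduct _, ?_⟩, ?_⟩
        · rw [Matrix.zero_vecMulVec, Matrix.vecMulVec_zero, add_zero]
          exact h.zero_mem
        · rw [zero_smul, zero_smul, add_zero, add_zero]
      smul_mem' := by
        rintro e _ ⟨c, d, a, α, h3, rfl⟩
        refine ⟨e * c, e * d, e • a, e • α, h3.smul e, ?_⟩
        rw [smul_add, smul_add, smul_smul, smul_smul] }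
  have hv : v ∈ U := by
    refine ⟨1, 0, 0, 0, ⟨dotProduct_zero _, dotProduct_zero _, zero_dotProduct _,
      zero_dotProduct _, ?_⟩, ?_⟩
    · rw [Matrix.zero_vecMulVec, Matrix.vecMulVec_zero, add_zero]
      exact h.zero_mem
    · rw [one_smul, zero_smul, add_zero, add_zero]
  have hw : w ∈ U := by
    refine ⟨0, 1, 0, 0, ⟨dotProduct_zero _, dotProduct_zero _, zero_dotProduct _,
      zero_dotProduct _, ?_⟩, ?_⟩
    · rw [Matrix.zero_vecMulVec, Matrix.vecMulVec_zero, add_zero]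
      exact h.zero_mem
    · rw [one_smul, zero_smul, add_zero, zero_add]
  have ha : ∀ {a α}, Lm h v φ w ψ a α → a ∈ U := by
    intro a α h3
    exact ⟨0, 0, a, α, h3, by rw [zero_smul, zero_smul, add_zero, zero_add]⟩
  have hU : U = ⊤ := by
    rcases R.irr U (by
      rintro X hX _ ⟨c, d, a, α, h3, rfl⟩
      rw [Matrix.mulVec_add, Matrix.mulVec_add, Matrix.mulVec_smul, Matrix.mulVec_smul]
      refine U.add_mem (U.add_mem (U.smul_mem c ?_) (U.smul_mem d ?_)) ?_
      · have h4 := U.sub_mem (U.add_mem (U.smul_mem (ψ ⬝ᵥ X.mulVec v) hv)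
          (U.smul_mem (φ ⬝ᵥ X.mulVec v) hw)) (ha (P.deg1 R hX))
        convert h4 using 1
        abel
      · have h4 := U.add_mem (U.add_mem (U.smul_mem (ψ ⬝ᵥ X.mulVec w) hv)
          (U.smul_mem (φ ⬝ᵥ X.mulVec w) hw)) (ha (P.deg1' R hX))
        convert h4 using 1
        abel
      · have h4 := U.add_mem (U.add_mem (U.add_mem (U.smul_mem (ψ ⬝ᵥ X.mulVec a) hv)
          (U.smul_mem (φ ⬝ᵥ X.mulVec a) hw)) (U.smul_mem (φ ⬝ᵥ X.mulVec w) (ha h3)))
          (ha (h3.act R P hX))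
        convert h4 using 1
        abel) with h4 | h4
    · exact absurd ((Submodule.mem_bot F).1 (h4 ▸ hv)) P.v_ne
    · exact h4
  have hx : x ∈ U := by rw [hU]; trivial
  obtain ⟨c, d, a, α, h3, h4⟩ := hx
  have h5 : φ ⬝ᵥ x = d := by
    rw [h4, dotProduct_add, dotProduct_add, dotProduct_smul, dotProduct_smul, P.vv, P.vw, h3.a1]
    simp
  have h6 : ψ ⬝ᵥ x = c := by
    rw [h4, dotProduct_add, dotProduct_add, dotProduct_smul, dotProduct_smul, P.wv, P.ww, h3.a2]
    simp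
  rw [h1] at h5
  rw [h2] at h6
  rw [← h5, ← h6, zero_smul, zero_smul, add_zero, zero_add] at h4
  exact ⟨α, h4 ▸ h3⟩

/-- no `b ≠ 0` in `V_0` is killed by all `α` -/
theorem Pr.nd (R : Rk h) (P : Pr h v φ w ψ) (x : Fin n → F) (h1 : φ ⬝ᵥ x = 0) (h2 : ψ ⬝ᵥ x = 0)
    (h3 : ∀ a α, Lm h v φ w ψ a α → α ⬝ᵥ x = 0) : x = 0 := by
  let M : Submodule F (Fin n → F) :=
    { carrier := {x | φ ⬝ᵥ x = 0 ∧ ψ ⬝ᵥ x = 0 ∧ ∀ a α, Lm h v φ w ψ a α → α ⬝ᵥ x = 0}
      add_mem' := by
        rintro x y ⟨h4, h5, h6⟩ ⟨h4', h5', h6'⟩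
        refine ⟨?_, ?_, fun a α h7 => ?_⟩
        · rw [dotProduct_add, h4, h4', add_zero]
        · rw [dotProduct_add, h5, h5', add_zero]
        · rw [dotProduct_add, h6 a α h7, h6' a α h7, add_zero]
      zero_mem' := ⟨dotProduct_zero _, dotProduct_zero _, fun _ _ _ => dotProduct_zero _⟩
      smul_mem' := by
        rintro c x ⟨h4, h5, h6⟩
        refine ⟨?_, ?_, fun a α h7 => ?_⟩
        · rw [dotProduct_smul, h4, smul_zero]
        · rw [dotProduct_smul, h5, smul_zero]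
        · rw [dotProduct_smul, h6 a α h7, smul_zero] }
  have hM : M = ⊥ := by
    rcases R.irr M (by
      rintro X hX x ⟨h4, h5, h6⟩
      have e1 : φ ⬝ᵥ X.mulVec x = 0 := by
        have h7 := h6 _ _ (P.deg1 R hX)
        rw [sub_dotProduct, sub_dotProduct, smul_dotProduct, smul_dotProduct, h4, h5,
          ← Matrix.dotProduct_mulVec] at h7
        simpa using h7
      have e2 : ψ ⬝ᵥ X.mulVec x = 0 := by
        have h7 := h6 _ _ (P.deg1' R hX)
        rw [sub_dotProduct, sub_dotProduct, smul_dotProduct, smul_dotProduct, h4, h5,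
          ← Matrix.dotProduct_mulVec] at h7
        simpa using h7
      refine ⟨e1, e2, fun a α h7 => ?_⟩
      have h8 := h6 _ _ (h7.act R P hX)
      rw [sub_dotProduct, sub_dotProduct, sub_dotProduct, smul_dotProduct, smul_dotProduct,
        smul_dotProduct, h4, h5, h6 _ _ h7, ← Matrix.dotProduct_mulVec] at h8
      simpa using h8) with h4 | h4
    · exact h4
    · have h5 : v ∈ M := by rw [h4]; trivial
      have h6 := h5.2.1
      rw [P.wv] at h6
      exact absurd h6 one_ne_zero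
  have hx : x ∈ M := ⟨h1, h2, h3⟩
  rw [hM] at hx
  exact (Submodule.mem_bot F).1 hx

/-- a space of vectors, on which no vector is orthogonal, is everything -/
theorem dual_top (Ξ : Submodule F (Fin n → F)) (h1 : ∀ x, (∀ ξ ∈ Ξ, ξ ⬝ᵥ x = 0) → x = 0) :
    Ξ = ⊤ := by
  by_contra h2
  obtain ⟨f, hf, hle⟩ := Submodule.exists_le_ker_of_lt_top Ξ (lt_top_iff_ne_top.2 h2)
  apply hf
  have h3 : ∀ y, f y = y ⬝ᵥ (fun i => f (Pi.single i 1)) := by
    intro y
    conv_lhs => rw [pi_eq_sum_univ' y]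
    rw [map_sum, dotProduct]
    exact Finset.sum_congr rfl fun i _ => by rw [map_smul, smul_eq_mul]
  have h4 := h1 (fun i => f (Pi.single i 1)) fun ξ hξ => by
    rw [← h3]
    exact hle hξ
  ext1 i
  refine LinearMap.ext fun c => ?_
  simp only [LinearMap.comp_apply, LinearMap.single_apply, LinearMap.zero_apply]
  rw [h3, h4, dotProduct_zero]

theorem Pr.sl (R : Rk h) (P : Pr h v φ w ψ)
    (hK : ∀ a, φ ⬝ᵥ a = 0 → ψ ⬝ᵥ a = 0 → Matrix.vecMulVec a φ ∈ h)
    (X : Matrix (Fin n) (Fin n) F) (hX : X.trace = 0) : X ∈ h := by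
  classical
  have hα : ∀ {a α}, Lm h v φ w ψ a α → Matrix.vecMulVec v α ∈ h := by
    intro a α h1
    have h2 := h.sub_mem h1.mem (hK a h1.a1 h1.a2)
    rwa [add_sub_cancel_left] at h2
  have hψ : ∀ a, φ ⬝ᵥ a = 0 → ψ ⬝ᵥ a = 0 → Matrix.vecMulVec a ψ ∈ h := by
    intro a h1 h2
    have h3 := R.br2 P.f (hK a h1 h2)
    rw [h2, P.vw, zero_smul, one_smul, zero_sub] at h3
    exact (Submodule.neg_mem_iff h).1 h3
  let Ξ : Submodule F (Fin n → F) :=
    { carrier := {ξ | ∀ x, Matrix.vecMulVec x ξ - (ξ ⬝ᵥ x) • Matrix.vecMulVec w φ ∈ h}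
      add_mem' := by
        intro ξ η h1 h2 x
        have h3 := h.add_mem (h1 x) (h2 x)
        rw [Matrix.vecMulVec_add, add_dotProduct, add_smul]
        convert h3 using 1
        abel
      zero_mem' := by
        intro x
        rw [Matrix.vecMulVec_zero, zero_dotProduct, zero_smul, sub_zero]
        exact h.zero_mem
      smul_mem' := by
        intro c ξ h1 x
        have h3 := h.smul_mem c (h1 x)
        rw [Matrix.vecMulVec_smul, smul_dotProduct, smul_assoc, ← smul_sub]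
        exact h3 }
  -- by linearity in `x`
  have hx : ∀ ξ : Fin n → F, Matrix.vecMulVec v ξ - (ξ ⬝ᵥ v) • Matrix.vecMulVec w φ ∈ h →
      Matrix.vecMulVec w ξ - (ξ ⬝ᵥ w) • Matrix.vecMulVec w φ ∈ h →
      (∀ a, φ ⬝ᵥ a = 0 → ψ ⬝ᵥ a = 0 →
        Matrix.vecMulVec a ξ - (ξ ⬝ᵥ a) • Matrix.vecMulVec w φ ∈ h) → ξ ∈ Ξ := by
    intro ξ h1 h2 h3 x
    have h4 := h3 (x - (ψ ⬝ᵥ x) • v - (φ ⬝ᵥ x) • w) (by
      rw [dotProduct_sub, dotProduct_sub, dotProduct_smul, dotProduct_smul, P.vv, P.vw]; simp) (by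
      rw [dotProduct_sub, dotProduct_sub, dotProduct_smul, dotProduct_smul, P.wv, P.ww]; simp)
    have h5 := h.add_mem (h.add_mem h4 (h.smul_mem (ψ ⬝ᵥ x) h1)) (h.smul_mem (φ ⬝ᵥ x) h2)
    rw [dotProduct_sub, dotProduct_sub, dotProduct_smul, dotProduct_smul] at h5
    convert h5 using 1
    ext i j
    simp only [Matrix.sub_apply, Matrix.add_apply, Matrix.smul_apply, Matrix.vecMulVec_apply,
      smul_eq_mul, Pi.sub_apply, Pi.smul_apply]
    ring
  have m1 : φ ∈ Ξ := by
    refine hx φ ?_ ?_ fun a h1 h2 => ?_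
    · rw [P.vv, zero_smul, sub_zero]; exact P.e
    · rw [P.vw, one_smul, sub_self]; exact h.zero_mem
    · rw [h1, zero_smul, sub_zero]; exact hK a h1 h2
  have m2 : ψ ∈ Ξ := by
    refine hx ψ ?_ ?_ fun a h1 h2 => ?_
    · rw [P.wv, one_smul]; exact P.hh R
    · rw [P.ww, zero_smul, sub_zero]; exact P.f
    · rw [h2, zero_smul, sub_zero]; exact hψ a h1 h2
  have m3 : ∀ a α, Lm h v φ w ψ a α → α ∈ Ξ := by
    intro a α h1
    have e1 := hα h1
    have e2 : Matrix.vecMulVec w α ∈ h := by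
      have h3 := h.add_mem (h1.low R P) (hψ a h1.a1 h1.a2)
      rwa [sub_add_cancel] at h3
    refine hx α ?_ ?_ fun b h2 h3 => ?_
    · rw [h1.α1, zero_smul, sub_zero]; exact e1
    · rw [h1.α2, zero_smul, sub_zero]; exact e2
    · have h4 := R.br2 (hK b h2 h3) e2
      rwa [P.vw, one_smul] at h4
  have hΞ : Ξ = ⊤ := dual_top Ξ fun x hx => P.nd R x (hx φ m1) (hx ψ m2) fun a α h1 =>
    hx α (m3 a α h1)
  have h7 : X = ∑ i, (Matrix.vecMulVec (Pi.single i 1) (X i) -
      (X i ⬝ᵥ Pi.single i 1) • Matrix.vecMulVec w φ) := by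
    rw [Finset.sum_sub_distrib, ← Finset.sum_smul]
    have h8 : ∑ i, (X i ⬝ᵥ Pi.single i 1) = 0 := by
      rw [← hX, Matrix.trace]
      refine Finset.sum_congr rfl fun i _ => ?_
      rw [dotProduct_single, mul_one, Matrix.diag_apply]
    rw [h8, zero_smul, sub_zero]
    ext i j
    rw [Matrix.sum_apply, Finset.sum_eq_single i]
    · rw [Matrix.vecMulVec_apply, Pi.single_eq_same, one_mul]
    · intro k _ hk
      rw [Matrix.vecMulVec_apply, Pi.single_eq_of_ne (Ne.symm hk), zero_mul]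
    · intro h
      exact absurd (Finset.mem_univ i) h
  rw [h7]
  refine h.sum_mem fun i _ => ?_
  have h8 : X i ∈ Ξ := by rw [hΞ]; trivial
  exact h8 _

end Pool.Agent.MUH
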